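import Pool.Agent.L7h17.RS.Defs

/-!
# Project RS: algebra of the components of two-forms (helper17)
-/

set_option autoImplicit false

open Set Filter Topology MeasureTheory
open scoped ContDiff ComplexConjugate

noncomputable section

namespace Pool.Agent.L7h17.RS

variable {n : ℕ}

theorem vec_exp (v : EC n) : v = ∑ j, ((v j).re • ex j + (v j).im • ey j) := by
  funext k
  rw [Finset.sum_apply, Finset.sum_eq_single k]
  · simp only [ex, ey, Pi.add_apply, Pi.smul_apply, Pi.single_eq_same]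
    apply Complex.ext <;> simp
  · intro j _ hj
    simp [ex, ey, Pi.single_eq_of_ne hj.symm]
  · intro h
    exact absurd (Finset.mem_univ k) h

/-- linear functionals are determined by their values on the basis -/
theorem lin_exp (L : EC n →ₗ[ℝ] ℝ) (v : EC n) :
    L v = ∑ j, ((v j).re * L (ex j) + (v j).im * L (ey j)) := by
  conv_lhs => rw [vec_exp v]
  rw [map_sum]
  refine Finset.sum_congr rfl fun j _ => ?_
  rw [map_add, map_smul, map_smul, smul_eq_mul, smul_eq_mul]

theorem lin_zero (L : EC n →ₗ[ℝ] ℝ) (h1 : ∀ j, L (ex j) = 0) (h2 : ∀ j, L (ey j) = 0) (v : EC n) :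
    L v = 0 := by
  rw [lin_exp]
  refine Finset.sum_eq_zero fun j _ => ?_
  rw [h1, h2]; ring

/-- the first argument of a two-form -/
def lin1 (τ : F2 n) (w : EC n) : EC n →ₗ[ℝ] ℝ where
  toFun v := τ ![v, w]
  map_add' x y := by rw [← τ.vecCons_add]
  map_smul' c x := by rw [← τ.vecCons_smul]; rfl

theorem alt2 (τ : F2 n) (v w : EC n) : τ ![v, w] = - τ ![w, v] := by
  have h : τ (![w, v] ∘ Equiv.swap 0 1) = - τ ![w, v] :=
    τ.toAlternatingMap.map_swap ![w, v] (i := 0) (j := 1) (by decide)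
  rw [← h]
  congr 1
  funext i
  fin_cases i <;> rfl

theorem ext2 {τ τ' : F2 n} (hxx : ∀ j k, τ ![ex j, ex k] = τ' ![ex j, ex k])
    (hxy : ∀ j k, τ ![ex j, ey k] = τ' ![ex j, ey k])
    (hyy : ∀ j k, τ ![ey j, ey k] = τ' ![ey j, ey k]) : τ = τ' := by
  have hyx : ∀ j k, τ ![ey j, ex k] = τ' ![ey j, ex k] := fun j k => by
    rw [alt2, alt2 τ', hxy]
  have key : ∀ v w, τ ![v, w] = τ' ![v, w] := by
    intro v w
    have h1 : ∀ w', (∀ j, τ ![ex j, w'] = τ' ![ex j, w']) → (∀ j, τ ![ey j, w'] = τ' ![ey j, w']) →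
        τ ![v, w'] = τ' ![v, w'] := by
      intro w' ha hb
      have := lin_zero (lin1 τ w' - lin1 τ' w') (fun j => by
        show τ ![ex j, w'] - τ' ![ex j, w'] = 0
        rw [ha]; ring) (fun j => by
        show τ ![ey j, w'] - τ' ![ey j, w'] = 0
        rw [hb]; ring) v
      have h2 : τ ![v, w'] - τ' ![v, w'] = 0 := this
      linarith
    have h3 : ∀ u, (∀ j, τ ![ex j, u] = τ' ![ex j, u]) ∧ (∀ j, τ ![ey j, u] = τ' ![ey j, u]) := by
      intro u
      constructor
      · intro j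
        have := lin_zero (lin1 τ (ex j) - lin1 τ' (ex j)) (fun k => by
          show τ ![ex k, ex j] - τ' ![ex k, ex j] = 0
          rw [hxx]; ring) (fun k => by
          show τ ![ey k, ex j] - τ' ![ey k, ex j] = 0
          rw [hyx]; ring) u
        have h2 : τ ![u, ex j] - τ' ![u, ex j] = 0 := this
        rw [alt2, alt2 τ']
        linarith
      · intro j
        have := lin_zero (lin1 τ (ey j) - lin1 τ' (ey j)) (fun k => by
          show τ ![ex k, ey j] - τ' ![ex k, ey j] = 0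
          rw [hxy]; ring) (fun k => by
          show τ ![ey k, ey j] - τ' ![ey k, ey j] = 0
          rw [hyy]; ring) u
        have h2 : τ ![u, ey j] - τ' ![u, ey j] = 0 := this
        rw [alt2, alt2 τ']
        linarith
    exact h1 w (h3 w).1 (h3 w).2
  ext v
  have hv : v = ![v 0, v 1] := by
    funext i; fin_cases i <;> rfl
  rw [hv]
  exact key _ _

/-! ### three-forms -/

theorem alt3a (X : EC n [⋀^Fin 3]→L[ℝ] ℝ) (u v w : EC n) : X ![v, u, w] = - X ![u, v, w] := by
  have h : X (![u, v, w] ∘ Equiv.swap 0 1) = - X ![u, v, w] :=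
    X.toAlternatingMap.map_swap ![u, v, w] (i := 0) (j := 1) (by decide)
  rw [← h]
  congr 1
  funext i
  fin_cases i <;> rfl

theorem alt3b (X : EC n [⋀^Fin 3]→L[ℝ] ℝ) (u v w : EC n) : X ![u, w, v] = - X ![u, v, w] := by
  have h : X (![u, v, w] ∘ Equiv.swap 1 2) = - X ![u, v, w] :=
    X.toAlternatingMap.map_swap ![u, v, w] (i := 1) (j := 2) (by decide)
  rw [← h]
  congr 1
  funext i
  fin_cases i <;> rfl

/-- the first argument of a three-form -/
def lin3 (X : EC n [⋀^Fin 3]→L[ℝ] ℝ) (v w : EC n) : EC n →ₗ[ℝ] ℝ where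
  toFun u := X ![u, v, w]
  map_add' x y := by rw [← X.vecCons_add]
  map_smul' c x := by rw [← X.vecCons_smul]; rfl

theorem zero3 {X : EC n [⋀^Fin 3]→L[ℝ] ℝ} (hxxx : ∀ l j k, X ![ex l, ex j, ex k] = 0)
    (hyxx : ∀ l j k, X ![ey l, ex j, ex k] = 0) (hyyx : ∀ l j k, X ![ey l, ey j, ex k] = 0)
    (hyyy : ∀ l j k, X ![ey l, ey j, ey k] = 0) : X = 0 := by
  have h1 : ∀ u v w, (∀ j, X ![ex j, v, w] = 0) → (∀ j, X ![ey j, v, w] = 0) →
      X ![u, v, w] = 0 := fun u v w ha hb => lin_zero (lin3 X v w) ha hb u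
  have h2 : ∀ u v j, X ![u, v, ex j] = 0 := by
    have g1 : ∀ u k j, X ![u, ex k, ex j] = 0 := fun u k j =>
      h1 u _ _ (fun l => hxxx l k j) (fun l => hyxx l k j)
    have g2 : ∀ u k j, X ![u, ey k, ex j] = 0 := fun u k j =>
      h1 u _ _ (fun l => by rw [alt3a, hyxx, neg_zero]) (fun l => hyyx l k j)
    intro u v j
    refine h1 u v _ (fun l => ?_) (fun l => ?_)
    · rw [alt3a, neg_eq_zero]
      exact g1 v l j
    · rw [alt3a, neg_eq_zero]
      exact g2 v l j
  have h3 : ∀ u v j, X ![u, v, ey j] = 0 := by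
    have g1 : ∀ u k j, X ![u, ex k, ey j] = 0 := fun u k j => by
      rw [alt3b, h2, neg_zero]
    have g2 : ∀ u k j, X ![u, ey k, ey j] = 0 := fun u k j =>
      h1 u _ _ (fun l => by rw [alt3a, g1, neg_zero]) (fun l => hyyy l k j)
    intro u v j
    refine h1 u v _ (fun l => ?_) (fun l => ?_)
    · rw [alt3a, neg_eq_zero]
      exact g1 v l j
    · rw [alt3a, neg_eq_zero]
      exact g2 v l j
  ext v
  have hv : v = ![v 0, v 1, v 2] := by
    funext i; fin_cases i <;> rfl
  rw [hv]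
  show X ![v 0, v 1, v 2] = 0
  refine h1 _ _ _ (fun l => ?_) (fun l => ?_)
  · rw [alt3a, alt3b, h2]; simp
  · rw [alt3a, alt3b, h3]; simp

theorem ext_eq {σ : EC n → F2 n} {z : EC n} (h : DifferentiableAt ℝ σ z) (u v w : EC n) :
    extDeriv σ z ![u, v, w] = fderiv ℝ σ z u ![v, w] - fderiv ℝ σ z v ![u, w] +
      fderiv ℝ σ z w ![u, v] := by
  rw [extDeriv_apply h, Fin.sum_univ_three]
  have h0 : ∀ a : Fin 2 → EC n, ∀ b : EC n, fderiv ℝ (fun x => σ x a) z b = fderiv ℝ σ z b a :=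
    fun a b => fderiv_continuousAlternatingMap_apply_const_apply h a b
  have e0 : (Fin.removeNth 0 ![u, v, w] : Fin 2 → EC n) = ![v, w] := by
    funext i; fin_cases i <;> rfl
  have e1 : (Fin.removeNth 1 ![u, v, w] : Fin 2 → EC n) = ![u, w] := by
    funext i; fin_cases i <;> rfl
  have e2 : (Fin.removeNth 2 ![u, v, w] : Fin 2 → EC n) = ![u, v] := by
    funext i; fin_cases i <;> rfl
  rw [h0, h0, h0, e0, e1, e2]
  simp
  ring

/-- the derivative of the evaluation of a form -/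
theorem has_ev {σ : EC n → F2 n} {z : EC n} (h : DifferentiableAt ℝ σ z) (a : Fin 2 → EC n) :
    HasFDerivAt (fun x => ((σ x a : ℝ) : ℂ))
      (Complex.ofRealCLM.comp ((ContinuousAlternatingMap.apply ℝ (EC n) ℝ a).comp
        (fderiv ℝ σ z))) z := by
  exact Complex.ofRealCLM.hasFDerivAt.comp z
    ((ContinuousAlternatingMap.apply ℝ (EC n) ℝ a).hasFDerivAt.comp z h.hasFDerivAt)

end Pool.Agent.L7h17.RS
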