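import Pool.Agent.L7h17.RS.Calc

/-!
# Project RS: mollifiers, components of averages (helper17)
-/

set_option autoImplicit false

open Set Filter Topology MeasureTheory
open scoped ContDiff ComplexConjugate

noncomputable section

namespace Pool.Agent.L7h17.RS

variable {n : ℕ}

theorem exists_moll (n : ℕ) {ε : ℝ} (hε : 0 < ε) : ∃ ρ : EC n → ℝ, Moll ε ρ := by
  let b : ContDiffBump (0 : EC n) := ⟨ε / 2, ε, by positivity, by linarith⟩
  refine ⟨b.normed volume, ?_, ?_, ?_, ?_, ?_⟩
  · exact b.contDiff_normed
  · exact b.nonneg_normed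
  · intro y hy
    have h1 : y ∉ Function.support (b.normed volume) := by
      rw [b.support_normed_eq]
      rw [Metric.mem_ball, dist_zero_right, not_lt]
      exact hy
    exact Function.notMem_support.1 h1
  · intro y hy
    have h1 : y ∈ Function.support (b.normed volume) := by
      rw [b.support_normed_eq]
      rw [Metric.mem_ball, dist_zero_right]
      exact hy
    exact lt_of_le_of_ne (b.nonneg_normed y) (Ne.symm h1)
  · exact b.integral_normed

theorem norm_re_im {z y : EC n} {ε : ℝ} (hy : ‖y‖ < ε) (j : Fin n) :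
    |((z - y) j).re| < |(z j).re| + ε ∧ |((z - y) j).im| < |(z j).im| + ε ∧
      |(z j).re| < |((z - y) j).re| + ε ∧ |(z j).im| < |((z - y) j).im| + ε := by
  have h1 : ‖y j‖ < ε := (norm_le_pi_norm y j).trans_lt hy
  have h2 : |(y j).re| < ε := (Complex.abs_re_le_norm _).trans_lt h1
  have h3 : |(y j).im| < ε := (Complex.abs_im_le_norm _).trans_lt h1
  rw [Pi.sub_apply, Complex.sub_re, Complex.sub_im]
  refine ⟨?_, ?_, ?_, ?_⟩
  · exact (abs_sub _ _).trans_lt (by linarith)
  · exact (abs_sub _ _).trans_lt (by linarith)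
  · have : |(z j).re| ≤ |(z j).re - (y j).re| + |(y j).re| := by
      have := abs_add_le ((z j).re - (y j).re) (y j).re
      simpa using this
    linarith
  · have : |(z j).im| ≤ |(z j).im - (y j).im| + |(y j).im| := by
      have := abs_add_le ((z j).im - (y j).im) (y j).im
      simpa using this
    linarith

theorem sub_mem_Qo {r s ε : ℝ} (h : r + ε ≤ s) {z y : EC n} (hy : ‖y‖ < ε) (hz : z ∈ Qo n r) :
    z - y ∈ Qo n s := fun j => by
  have h1 := norm_re_im (z := z) hy j
  have h2 := hz j
  exact ⟨by linarith [h1.1], by linarith [h1.2.1]⟩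

theorem sub_notMem_Qc {r s ε : ℝ} (h : s + ε ≤ r) {z y : EC n} (hy : ‖y‖ < ε) (hz : z ∉ Qc n r) :
    z - y ∉ Qc n s := fun hm => hz fun j => by
  have h1 := norm_re_im (z := z) hy j
  have h2 := hm j
  exact ⟨by linarith [h1.2.2.1], by linarith [h1.2.2.2]⟩

/-- the (1,1)-components of the averages -/
theorem HH_av {ρ : EC n → ℝ} {ε : ℝ} (hρ : Moll ε ρ) {σ : EC n → F2 n} {W A : Set (EC n)}
    (hW : IsOpen W) (hσ : ContinuousOn σ W) (hWA : W ⊆ A) {z : EC n}
    (hz : ∀ y : EC n, ‖y‖ ≤ ε → z - y ∈ W) (j k : Fin n) :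
    HH (av ρ σ) j k z = cv ρ (A.indicator (HH σ j k)) z := by
  have hint : Integrable (fun y => ρ y • σ (z - y)) volume := by
    have hc : Continuous (fun y => ρ y • σ (z - y)) := by
      rw [continuous_iff_continuousAt]
      intro y
      by_cases hy : ‖y‖ ≤ ε
      · have h1 : ContinuousAt σ (z - y) := hσ.continuousAt (hW.mem_nhds (hz y hy))
        have h2 : ContinuousAt (fun y : EC n => z - y) y :=
          (continuous_const.sub continuous_id).continuousAt
        exact hρ.smooth.continuous.continuousAt.smul (ContinuousAt.comp (f := fun y : EC n => z - y)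
          (g := σ) h1 h2)
      · rw [not_le] at hy
        have h1 : (fun y => ρ y • σ (z - y)) =ᶠ[𝓝 y] fun _ => 0 := by
          filter_upwards [(isOpen_lt continuous_const continuous_norm).mem_nhds hy] with x hx
          rw [hρ.supp x (le_of_lt hx), zero_smul]
        exact continuousAt_const.congr h1.symm
    have hcs : HasCompactSupport (fun y => ρ y • σ (z - y)) := by
      refine HasCompactSupport.intro (isCompact_closedBall (0 : EC n) ε) fun y hy => ?_
      rw [mem_closedBall_zero_iff, not_le] at hy
      rw [hρ.supp y hy.le, zero_smul]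
    exact hc.integrable_of_hasCompactSupport hcs
  rw [← HL_apply]
  unfold av
  rw [← (HL j k).integral_comp_comm hint]
  unfold cv
  rw [← integral_sub_left_eq_self (fun w => ((ρ (z - w) : ℝ) : ℂ) * A.indicator (HH σ j k) w)
    volume z]
  refine integral_congr_ae (Eventually.of_forall fun y => ?_)
  simp only [sub_sub_cancel, map_smul]
  by_cases hy : ‖y‖ < ε
  · have hm := hz y hy.le
    rw [indicator_of_mem (hWA hm), HL_apply, Complex.real_smul]
  · rw [not_lt] at hy
    rw [hρ.supp y hy, zero_smul, Complex.ofReal_zero, zero_mul]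

theorem cv_conj (ρ : EC n → ℝ) {f g : EC n → ℂ} (h : ∀ z, g z = - conj (f z)) (z : EC n) :
    cv ρ g z = - conj (cv ρ f z) := by
  unfold cv
  rw [← integral_conj, ← integral_neg]
  refine integral_congr_ae (Eventually.of_forall fun w => ?_)
  simp only
  rw [h, map_mul, Complex.conj_ofReal]
  ring

end Pool.Agent.L7h17.RS
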