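import Pool.Agent.L7h17.RS.Mk

/-!
# Project RS: calculus of `∂/∂z_j` and `∂/∂z̄_j`, cubes (helper17)
-/

set_option autoImplicit false

open Set Filter Topology MeasureTheory
open scoped ContDiff ComplexConjugate

noncomputable section

namespace Pool.Agent.L7h17.RS

variable {n : ℕ}

/-! ### cubes -/

/-- the real coordinates -/
def toR (n : ℕ) : EC n →L[ℝ] (Fin n → ℝ × ℝ) :=
  ContinuousLinearMap.pi fun j => (Complex.reCLM.prod Complex.imCLM).comp
    (ContinuousLinearMap.proj (R := ℝ) (φ := fun _ : Fin n => ℂ) j)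

theorem toR_apply (z : EC n) (j : Fin n) : toR n z j = ((z j).re, (z j).im) := rfl

theorem mem_Qo {r : ℝ} (hr : 0 < r) {z : EC n} : z ∈ Qo n r ↔ ‖toR n z‖ < r := by
  rw [pi_norm_lt_iff hr]
  refine forall_congr' fun j => ?_
  rw [toR_apply, Prod.norm_mk, max_lt_iff, Real.norm_eq_abs, Real.norm_eq_abs]

theorem mem_Qc {r : ℝ} (hr : 0 ≤ r) {z : EC n} : z ∈ Qc n r ↔ ‖toR n z‖ ≤ r := by
  rw [pi_norm_le_iff_of_nonneg hr]
  refine forall_congr' fun j => ?_
  rw [toR_apply, Prod.norm_mk, max_le_iff, Real.norm_eq_abs, Real.norm_eq_abs]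

theorem isOpen_Qo (n : ℕ) (r : ℝ) : IsOpen (Qo n r) := by
  have : Qo n r = ⋂ j, ({z : EC n | |(z j).re| < r} ∩ {z : EC n | |(z j).im| < r}) := by
    ext z; simp [Qo]
  rw [this]
  refine isOpen_iInter_of_finite fun j => ?_
  have h1 : Continuous fun z : EC n => |(z j).re| := by fun_prop
  have h2 : Continuous fun z : EC n => |(z j).im| := by fun_prop
  exact (isOpen_lt h1 continuous_const).inter (isOpen_lt h2 continuous_const)

theorem isClosed_Qc (n : ℕ) (r : ℝ) : IsClosed (Qc n r) := by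
  have : Qc n r = ⋂ j, ({z : EC n | |(z j).re| ≤ r} ∩ {z : EC n | |(z j).im| ≤ r}) := by
    ext z; simp [Qc]
  rw [this]
  refine isClosed_iInter fun j => ?_
  have h1 : Continuous fun z : EC n => |(z j).re| := by fun_prop
  have h2 : Continuous fun z : EC n => |(z j).im| := by fun_prop
  exact (isClosed_le h1 continuous_const).inter (isClosed_le h2 continuous_const)

theorem isCompact_Qc (n : ℕ) (r : ℝ) : IsCompact (Qc n r) := by
  refine Metric.isCompact_of_isClosed_isBounded (isClosed_Qc n r) ?_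
  refine (Metric.isBounded_closedBall (x := (0 : EC n)) (r := max (2 * r) 0)).subset ?_
  intro z hz
  rw [mem_closedBall_zero_iff, pi_norm_le_iff_of_nonneg (le_max_right _ _)]
  intro j
  refine le_trans ?_ (le_max_left _ _)
  refine (Complex.norm_le_abs_re_add_abs_im (z j)).trans ?_
  have := hz j
  linarith [this.1, this.2]

theorem Qo_sub_Qc (n : ℕ) (r : ℝ) : Qo n r ⊆ Qc n r := fun _ hz j => ⟨(hz j).1.le, (hz j).2.le⟩

theorem Qo_mono {n : ℕ} {r s : ℝ} (h : r ≤ s) : Qo n r ⊆ Qo n s := fun _ hz j =>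
  ⟨(hz j).1.trans_le h, (hz j).2.trans_le h⟩

theorem Qc_mono {n : ℕ} {r s : ℝ} (h : r ≤ s) : Qc n r ⊆ Qc n s := fun _ hz j =>
  ⟨(hz j).1.trans h, (hz j).2.trans h⟩

theorem Qc_sub_Qo {n : ℕ} {r s : ℝ} (h : r < s) : Qc n r ⊆ Qo n s := fun _ hz j =>
  ⟨(hz j).1.trans_lt h, (hz j).2.trans_lt h⟩

/-- a compact subset of an open cube is contained in a smaller cube -/
theorem exists_radius {K : Set (EC n)} (hK : IsCompact K) {R : ℝ} (hR : 0 < R) (h : K ⊆ Qo n R) :
    ∃ r, 0 < r ∧ r < R ∧ K ⊆ Qo n r := by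
  rcases K.eq_empty_or_nonempty with rfl | hne
  · exact ⟨R / 2, by linarith, by linarith, empty_subset _⟩
  · obtain ⟨z, hz, hmax⟩ := hK.exists_isMaxOn hne (toR n).continuous.norm.continuousOn
    have h1 : ‖toR n z‖ < R := (mem_Qo hR).1 (h hz)
    have h0 := norm_nonneg (toR n z)
    refine ⟨(‖toR n z‖ + R) / 2, by linarith, by linarith, fun y hy => ?_⟩
    rw [mem_Qo (by linarith)]
    have : ‖toR n y‖ ≤ ‖toR n z‖ := hmax hy
    linarith

/-! ### derivatives -/

theorem dz_congr {f g : EC n → ℂ} {z : EC n} (h : f =ᶠ[𝓝 z] g) (j : Fin n) :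
    dz j f z = dz j g z := by
  unfold dz; rw [h.fderiv_eq]

theorem db_congr {f g : EC n → ℂ} {z : EC n} (h : f =ᶠ[𝓝 z] g) (j : Fin n) :
    db j f z = db j g z := by
  unfold db; rw [h.fderiv_eq]

theorem dz_ev {f g : EC n → ℂ} {z : EC n} (h : f =ᶠ[𝓝 z] g) (j : Fin n) :
    dz j f =ᶠ[𝓝 z] dz j g := by
  filter_upwards [h.eventuallyEq_nhds] with y hy
  exact dz_congr hy j

theorem db_ev {f g : EC n → ℂ} {z : EC n} (h : f =ᶠ[𝓝 z] g) (j : Fin n) :
    db j f =ᶠ[𝓝 z] db j g := by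
  filter_upwards [h.eventuallyEq_nhds] with y hy
  exact db_congr hy j

theorem ev_of_eqOn {f g : EC n → ℂ} {s : Set (EC n)} (hs : IsOpen s) (h : EqOn f g s) {z : EC n}
    (hz : z ∈ s) : f =ᶠ[𝓝 z] g := by
  filter_upwards [hs.mem_nhds hz] with y hy
  exact h hy

theorem dz_neg (f : EC n → ℂ) (j : Fin n) (z : EC n) : dz j (fun y => - f y) z = - dz j f z := by
  unfold dz
  rw [fderiv_fun_neg]
  simp only [neg_apply]
  ring

theorem db_neg (f : EC n → ℂ) (j : Fin n) (z : EC n) : db j (fun y => - f y) z = - db j f z := by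
  unfold db
  rw [fderiv_fun_neg]
  simp only [neg_apply]
  ring

theorem dz_add {f g : EC n → ℂ} {z : EC n} (hf : DifferentiableAt ℝ f z)
    (hg : DifferentiableAt ℝ g z) (j : Fin n) :
    dz j (fun y => f y + g y) z = dz j f z + dz j g z := by
  unfold dz
  rw [fderiv_fun_add hf hg]
  simp only [add_apply]
  ring

theorem db_add {f g : EC n → ℂ} {z : EC n} (hf : DifferentiableAt ℝ f z)
    (hg : DifferentiableAt ℝ g z) (j : Fin n) :
    db j (fun y => f y + g y) z = db j f z + db j g z := by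
  unfold db
  rw [fderiv_fun_add hf hg]
  simp only [add_apply]
  ring

theorem dz_sub {f g : EC n → ℂ} {z : EC n} (hf : DifferentiableAt ℝ f z)
    (hg : DifferentiableAt ℝ g z) (j : Fin n) :
    dz j (fun y => f y - g y) z = dz j f z - dz j g z := by
  unfold dz
  rw [fderiv_fun_sub hf hg]
  simp only [sub_apply]
  ring

theorem db_sub {f g : EC n → ℂ} {z : EC n} (hf : DifferentiableAt ℝ f z)
    (hg : DifferentiableAt ℝ g z) (j : Fin n) :
    db j (fun y => f y - g y) z = db j f z - db j g z := by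
  unfold db
  rw [fderiv_fun_sub hf hg]
  simp only [sub_apply]
  ring

theorem dz_zero (j : Fin n) (z : EC n) : dz j (fun _ => (0 : ℂ)) z = 0 := by
  unfold dz; simp

theorem db_zero (j : Fin n) (z : EC n) : db j (fun _ => (0 : ℂ)) z = 0 := by
  unfold db; simp

/-- the derivative in the direction `u` of a smooth function is smooth -/
theorem fd_smooth {f : EC n → ℂ} {z : EC n} (hf : ContDiffAt ℝ ∞ f z) (u : EC n) :
    ContDiffAt ℝ ∞ (fun y => fderiv ℝ f y u) z :=
  (hf.fderiv_right (m := ∞) (by simp)).clm_apply contDiffAt_const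

theorem dz_smoothAt {f : EC n → ℂ} {z : EC n} (hf : ContDiffAt ℝ ∞ f z) (j : Fin n) :
    ContDiffAt ℝ ∞ (dz j f) z := by
  unfold dz
  exact ((fd_smooth hf _).sub (contDiffAt_const.mul (fd_smooth hf _))).div_const 2

theorem db_smoothAt {f : EC n → ℂ} {z : EC n} (hf : ContDiffAt ℝ ∞ f z) (j : Fin n) :
    ContDiffAt ℝ ∞ (db j f) z := by
  unfold db
  exact ((fd_smooth hf _).add (contDiffAt_const.mul (fd_smooth hf _))).div_const 2

theorem dz_smoothOn {f : EC n → ℂ} {s : Set (EC n)} (hs : IsOpen s) (hf : ContDiffOn ℝ ∞ f s)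
    (j : Fin n) : ContDiffOn ℝ ∞ (dz j f) s := fun _ hz =>
  (dz_smoothAt (hf.contDiffAt (hs.mem_nhds hz)) j).contDiffWithinAt

theorem db_smoothOn {f : EC n → ℂ} {s : Set (EC n)} (hs : IsOpen s) (hf : ContDiffOn ℝ ∞ f s)
    (j : Fin n) : ContDiffOn ℝ ∞ (db j f) s := fun _ hz =>
  (db_smoothAt (hf.contDiffAt (hs.mem_nhds hz)) j).contDiffWithinAt

/-- symmetry of second derivatives -/
theorem fd_comm {f : EC n → ℂ} {z : EC n} (hf : ContDiffAt ℝ ∞ f z) (u v : EC n) :
    fderiv ℝ (fun y => fderiv ℝ f y u) z v = fderiv ℝ (fun y => fderiv ℝ f y v) z u := by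
  have h1 : DifferentiableAt ℝ (fderiv ℝ f) z :=
    (hf.fderiv_right (m := ∞) (by simp)).differentiableAt (by simp)
  have h2 : ∀ w : EC n, fderiv ℝ (fun y => fderiv ℝ f y w) z = (fderiv ℝ (fderiv ℝ f) z).flip w := by
    intro w
    rw [fderiv_clm_apply h1 (differentiableAt_const w)]
    simp
  have h3 : IsSymmSndFDerivAt ℝ f z := (hf.of_le (m := 2) (WithTop.coe_le_coe.2 le_top)).isSymmSndFDerivAt
    (by rw [minSmoothness_of_isRCLikeNormedField])
  rw [h2, h2]
  exact h3 v u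

theorem fd_half_sub {F G : EC n → ℂ} {z : EC n} (c : ℂ) (hF : DifferentiableAt ℝ F z)
    (hG : DifferentiableAt ℝ G z) (u : EC n) :
    fderiv ℝ (fun y => (F y + c * G y) / 2) z u = (fderiv ℝ F z u + c * fderiv ℝ G z u) / 2 := by
  have h1 : HasFDerivAt (fun y => (F y + c * G y) * (2 : ℂ)⁻¹)
      ((2 : ℂ)⁻¹ • (fderiv ℝ F z + c • fderiv ℝ G z)) z :=
    (hF.hasFDerivAt.add (hG.hasFDerivAt.const_mul c)).mul_const _
  have h2 : (fun y => (F y + c * G y) / 2) = fun y => (F y + c * G y) * (2 : ℂ)⁻¹ := by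
    funext y; rw [div_eq_mul_inv]
  rw [h2, h1.fderiv]
  simp
  ring

/-- the general first order operator `(D_u + c D_v) / 2` -/
theorem two_comm {f : EC n → ℂ} {z : EC n} (hf : ContDiffAt ℝ ∞ f z) (u v u' v' : EC n) (c c' : ℂ) :
    (fderiv ℝ (fun y => (fderiv ℝ f y u + c * fderiv ℝ f y v) / 2) z u' +
      c' * fderiv ℝ (fun y => (fderiv ℝ f y u + c * fderiv ℝ f y v) / 2) z v') / 2 =
    (fderiv ℝ (fun y => (fderiv ℝ f y u' + c' * fderiv ℝ f y v') / 2) z u +
      c * fderiv ℝ (fun y => (fderiv ℝ f y u' + c' * fderiv ℝ f y v') / 2) z v) / 2 := by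
  have hd : ∀ w : EC n, DifferentiableAt ℝ (fun y => fderiv ℝ f y w) z := fun w =>
    (fd_smooth hf w).differentiableAt (by simp)
  rw [fd_half_sub c (hd u) (hd v), fd_half_sub c (hd u) (hd v), fd_half_sub c' (hd u') (hd v'),
    fd_half_sub c' (hd u') (hd v'), fd_comm hf u u', fd_comm hf v u', fd_comm hf u v',
    fd_comm hf v v']
  ring

theorem dz_eq (j : Fin n) (f : EC n → ℂ) :
    dz j f = fun z => (fderiv ℝ f z (ex j) + (-Complex.I) * fderiv ℝ f z (ey j)) / 2 := by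
  funext z
  unfold dz
  ring

theorem db_eq (j : Fin n) (f : EC n → ℂ) :
    db j f = fun z => (fderiv ℝ f z (ex j) + Complex.I * fderiv ℝ f z (ey j)) / 2 := rfl

theorem dz_dz {f : EC n → ℂ} {z : EC n} (hf : ContDiffAt ℝ ∞ f z) (j k : Fin n) :
    dz j (dz k f) z = dz k (dz j f) z := by
  simp only [dz_eq]
  exact two_comm hf _ _ _ _ _ _

theorem db_dz {f : EC n → ℂ} {z : EC n} (hf : ContDiffAt ℝ ∞ f z) (j k : Fin n) :
    db j (dz k f) z = dz k (db j f) z := by
  simp only [dz_eq, db_eq]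
  exact two_comm hf _ _ _ _ _ _

theorem db_db {f : EC n → ℂ} {z : EC n} (hf : ContDiffAt ℝ ∞ f z) (j k : Fin n) :
    db j (db k f) z = db k (db j f) z := by
  simp only [db_eq]
  exact two_comm hf _ _ _ _ _ _

/-! ### the components as linear functions of the form -/

/-- the evaluation of a form, with values in `ℂ` -/
def evL (a b : EC n) : F2 n →L[ℝ] ℂ :=
  Complex.ofRealCLM.comp (ContinuousAlternatingMap.apply ℝ (EC n) ℝ ![a, b])

/-- the component `(∂_j, ∂̄_k)` -/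
def HL (j k : Fin n) : F2 n →L[ℝ] ℂ :=
  (4 : ℂ)⁻¹ • (evL (ex j) (ex k) + evL (ey j) (ey k) +
    Complex.I • (evL (ex j) (ey k) - evL (ey j) (ex k)))

theorem HL_apply (σ : EC n → F2 n) (j k : Fin n) (z : EC n) : HL j k (σ z) = HH σ j k z := by
  unfold HL HH evL
  simp only [smul_apply, add_apply,
    sub_apply, ContinuousLinearMap.comp_apply, smul_eq_mul]
  rw [div_eq_inv_mul]
  rfl

theorem HH_congr {σ τ : EC n → F2 n} {z : EC n} (h : σ z = τ z) (j k : Fin n) :
    HH σ j k z = HH τ j k z := by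
  unfold HH; rw [h]

theorem BB_congr {σ τ : EC n → F2 n} {z : EC n} (h : σ z = τ z) (j k : Fin n) :
    BB σ j k z = BB τ j k z := by
  unfold BB; rw [h]

theorem ev_smooth {σ : EC n → F2 n} {s : Set (EC n)} (h : ContDiffOn ℝ ∞ σ s) (a b : EC n) :
    ContDiffOn ℝ ∞ (fun z => ((σ z ![a, b] : ℝ) : ℂ)) s :=
  (evL a b).contDiff.comp_contDiffOn h

theorem HH_smooth {σ : EC n → F2 n} {s : Set (EC n)} (h : ContDiffOn ℝ ∞ σ s) (j k : Fin n) :
    ContDiffOn ℝ ∞ (HH σ j k) s := by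
  unfold HH
  exact (((ev_smooth h _ _).add (ev_smooth h _ _)).add (contDiffOn_const.mul
    ((ev_smooth h _ _).sub (ev_smooth h _ _)))).div_const 4

theorem BB_smooth {σ : EC n → F2 n} {s : Set (EC n)} (h : ContDiffOn ℝ ∞ σ s) (j k : Fin n) :
    ContDiffOn ℝ ∞ (BB σ j k) s := by
  unfold BB
  exact (((ev_smooth h _ _).sub (ev_smooth h _ _)).sub (contDiffOn_const.mul
    ((ev_smooth h _ _).add (ev_smooth h _ _)))).div_const 4

end Pool.Agent.L7h17.RS
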