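import Pool.Agent.L7h17.RS.Alg

/-!
# Project RS: closed forms in terms of components (helper17)
-/

set_option autoImplicit false

open Set Filter Topology MeasureTheory
open scoped ContDiff ComplexConjugate

noncomputable section

namespace Pool.Agent.L7h17.RS

variable {n : ℕ}

theorem fd_HH {σ : EC n → F2 n} {z : EC n} (h : DifferentiableAt ℝ σ z) (j k : Fin n) (u : EC n) :
    fderiv ℝ (HH σ j k) z u =
      (((fderiv ℝ σ z u ![ex j, ex k] : ℝ) : ℂ) + ((fderiv ℝ σ z u ![ey j, ey k] : ℝ) : ℂ) +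
        Complex.I * (((fderiv ℝ σ z u ![ex j, ey k] : ℝ) : ℂ) -
          ((fderiv ℝ σ z u ![ey j, ex k] : ℝ) : ℂ))) / 4 := by
  have h1 := ((((has_ev h ![ex j, ex k]).add (has_ev h ![ey j, ey k])).add
    (((has_ev h ![ex j, ey k]).sub (has_ev h ![ey j, ex k])).const_mul Complex.I)).mul_const
      ((4 : ℂ)⁻¹)).fderiv
  have h2 : HH σ j k = fun z => (((σ z ![ex j, ex k] : ℂ) + (σ z ![ey j, ey k] : ℂ)) +
    Complex.I * ((σ z ![ex j, ey k] : ℂ) - (σ z ![ey j, ex k] : ℂ))) * (4 : ℂ)⁻¹ := by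
    funext z
    unfold HH
    rw [div_eq_mul_inv]
  rw [h2]
  refine (congrArg (fun L => L u) h1).trans ?_
  simp
  ring

theorem fd_BB {σ : EC n → F2 n} {z : EC n} (h : DifferentiableAt ℝ σ z) (j k : Fin n) (u : EC n) :
    fderiv ℝ (BB σ j k) z u =
      (((fderiv ℝ σ z u ![ex j, ex k] : ℝ) : ℂ) - ((fderiv ℝ σ z u ![ey j, ey k] : ℝ) : ℂ) -
        Complex.I * (((fderiv ℝ σ z u ![ex j, ey k] : ℝ) : ℂ) +
          ((fderiv ℝ σ z u ![ey j, ex k] : ℝ) : ℂ))) / 4 := by
  have h1 := ((((has_ev h ![ex j, ex k]).sub (has_ev h ![ey j, ey k])).sub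
    (((has_ev h ![ex j, ey k]).add (has_ev h ![ey j, ex k])).const_mul Complex.I)).mul_const
      ((4 : ℂ)⁻¹)).fderiv
  have h2 : BB σ j k = fun z => (((σ z ![ex j, ex k] : ℂ) - (σ z ![ey j, ey k] : ℂ)) -
    Complex.I * ((σ z ![ex j, ey k] : ℂ) + (σ z ![ey j, ex k] : ℂ))) * (4 : ℂ)⁻¹ := by
    funext z
    unfold BB
    rw [div_eq_mul_inv]
  rw [h2]
  refine (congrArg (fun L => L u) h1).trans ?_
  simp
  ring

/-- the component `(∂_l, ∂_j, ∂̄_k)` of the exterior derivative -/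
theorem P21 {σ : EC n → F2 n} {z : EC n} (h : DifferentiableAt ℝ σ z) (l j k : Fin n) :
    dz l (HH σ j k) z - dz j (HH σ l k) z + db k (BB σ l j) z =
      (((extDeriv σ z ![ex l, ex j, ex k] : ℝ) : ℂ)
        - Complex.I * ((extDeriv σ z ![ey l, ex j, ex k] : ℝ) : ℂ)
        - Complex.I * ((extDeriv σ z ![ex l, ey j, ex k] : ℝ) : ℂ)
        + Complex.I * ((extDeriv σ z ![ex l, ex j, ey k] : ℝ) : ℂ)
        - ((extDeriv σ z ![ey l, ey j, ex k] : ℝ) : ℂ)
        + ((extDeriv σ z ![ey l, ex j, ey k] : ℝ) : ℂ)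
        + ((extDeriv σ z ![ex l, ey j, ey k] : ℝ) : ℂ)
        - Complex.I * ((extDeriv σ z ![ey l, ey j, ey k] : ℝ) : ℂ)) / 8 := by
  unfold dz db
  simp only [fd_HH h, fd_BB h, ext_eq h]
  push_cast
  have hI : Complex.I ^ 2 = -1 := Complex.I_sq
  have hI3 : Complex.I ^ 3 = - Complex.I := by rw [pow_succ, hI]; ring
  ring_nf
  simp only [hI, hI3]
  ring

/-- the component `(∂_l, ∂_j, ∂_k)` of the exterior derivative -/
theorem P30 {σ : EC n → F2 n} {z : EC n} (h : DifferentiableAt ℝ σ z) (l j k : Fin n) :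
    dz l (BB σ j k) z + dz j (BB σ k l) z + dz k (BB σ l j) z =
      (((extDeriv σ z ![ex l, ex j, ex k] : ℝ) : ℂ)
        - Complex.I * ((extDeriv σ z ![ey l, ex j, ex k] : ℝ) : ℂ)
        - Complex.I * ((extDeriv σ z ![ex l, ey j, ex k] : ℝ) : ℂ)
        - Complex.I * ((extDeriv σ z ![ex l, ex j, ey k] : ℝ) : ℂ)
        - ((extDeriv σ z ![ey l, ey j, ex k] : ℝ) : ℂ)
        - ((extDeriv σ z ![ey l, ex j, ey k] : ℝ) : ℂ)
        - ((extDeriv σ z ![ex l, ey j, ey k] : ℝ) : ℂ)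
        + Complex.I * ((extDeriv σ z ![ey l, ey j, ey k] : ℝ) : ℂ)) / 8 := by
  unfold dz
  simp only [fd_BB h, ext_eq h]
  rw [alt2 (fderiv ℝ σ z (ex j)) (ex k) (ex l), alt2 (fderiv ℝ σ z (ex j)) (ey k) (ey l),
    alt2 (fderiv ℝ σ z (ex j)) (ex k) (ey l), alt2 (fderiv ℝ σ z (ex j)) (ey k) (ex l),
    alt2 (fderiv ℝ σ z (ey j)) (ex k) (ex l), alt2 (fderiv ℝ σ z (ey j)) (ey k) (ey l),
    alt2 (fderiv ℝ σ z (ey j)) (ex k) (ey l), alt2 (fderiv ℝ σ z (ey j)) (ey k) (ex l)]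
  push_cast
  have hI : Complex.I ^ 2 = -1 := Complex.I_sq
  have hI3 : Complex.I ^ 3 = - Complex.I := by rw [pow_succ, hI]; ring
  ring_nf
  simp only [hI, hI3]
  ring

theorem s_COMP : S_COMP := by
  intro n σ z h
  constructor
  · intro h0
    refine ⟨fun l j k => ?_, fun l j k => ?_⟩
    · rw [P21 h, h0]
      simp
    · rw [P30 h, h0]
      simp
  · rintro ⟨h1, h2⟩
    have key : ∀ l j k : Fin n, extDeriv σ z ![ex l, ex j, ex k] = 0 ∧
        extDeriv σ z ![ey l, ex j, ex k] = 0 ∧ extDeriv σ z ![ey l, ey j, ex k] = 0 ∧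
        extDeriv σ z ![ey l, ey j, ey k] = 0 := by
      intro l j k
      have e1 := h1 l j k
      have e2 := h1 l k j
      have e3 := h1 j k l
      have e4 := h2 l j k
      rw [P21 h] at e1 e2 e3
      rw [P30 h] at e4
      set X := extDeriv σ z with hX
      -- permutations
      have p132 : ∀ u v w, X ![u, w, v] = - X ![u, v, w] := fun u v w => alt3b X u v w
      have p231 : ∀ u v w, X ![v, w, u] = X ![u, v, w] := fun u v w => by
        rw [alt3b X v u w, alt3a X u v w, neg_neg]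
      rw [p132 (ex l) (ex j) (ex k), p132 (ey l) (ex j) (ex k), p132 (ex l) (ex j) (ey k),
        p132 (ex l) (ey j) (ex k), p132 (ey l) (ex j) (ey k), p132 (ey l) (ey j) (ex k),
        p132 (ex l) (ey j) (ey k), p132 (ey l) (ey j) (ey k)] at e2
      rw [p231 (ex l) (ex j) (ex k), p231 (ex l) (ey j) (ex k), p231 (ex l) (ex j) (ey k),
        p231 (ey l) (ex j) (ex k), p231 (ex l) (ey j) (ey k), p231 (ey l) (ey j) (ex k),
        p231 (ey l) (ex j) (ey k), p231 (ey l) (ey j) (ey k)] at e3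
      have r1 := congrArg Complex.re e1
      have i1 := congrArg Complex.im e1
      have r2 := congrArg Complex.re e2
      have i2 := congrArg Complex.im e2
      have r3 := congrArg Complex.re e3
      have i3 := congrArg Complex.im e3
      have r4 := congrArg Complex.re e4
      have i4 := congrArg Complex.im e4
      simp at r1 i1 r2 i2 r3 i3 r4 i4
      refine ⟨by linarith, by linarith, by linarith, by linarith⟩
    exact zero3 (fun l j k => (key l j k).1) (fun l j k => (key l j k).2.1)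
      (fun l j k => (key l j k).2.2.1) (fun l j k => (key l j k).2.2.2)

end Pool.Agent.L7h17.RS
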