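import Mathlib

/-!
# Removable singularities of taming forms in complex coordinates: definitions and statements

Project RS (helper17).  `EC n = Fin n → ℂ` is `ℂ^n`; cubes are the sets `|Re z_j| ≤ r`,
`|Im z_j| ≤ r`.  A two-form `σ` on `ℂ^n` has the components `HH σ j k = σ(∂_j, ∂̄_k)` and
`BB σ j k = σ(∂_j, ∂_k)`.
-/

set_option autoImplicit false

open Set Filter Topology MeasureTheory
open scoped ContDiff ComplexConjugate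

noncomputable section

namespace Pool.Agent.L7h17.RS

/-- `ℂ^n` -/
abbrev EC (n : ℕ) : Type := Fin n → ℂ

/-- alternating real two-forms on the vector space `ℂ^n` -/
abbrev F2 (n : ℕ) : Type := EC n [⋀^Fin 2]→L[ℝ] ℝ

variable {n : ℕ}

/-- the vector `∂/∂x_j` -/
def ex (j : Fin n) : EC n := Pi.single j 1
/-- the vector `∂/∂y_j` -/
def ey (j : Fin n) : EC n := Pi.single j Complex.I

/-- the derivative `∂/∂z_j` -/
def dz (j : Fin n) (f : EC n → ℂ) (z : EC n) : ℂ :=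
  (fderiv ℝ f z (ex j) - Complex.I * fderiv ℝ f z (ey j)) / 2
/-- the derivative `∂/∂z̄_j` -/
def db (j : Fin n) (f : EC n → ℂ) (z : EC n) : ℂ :=
  (fderiv ℝ f z (ex j) + Complex.I * fderiv ℝ f z (ey j)) / 2

/-- open cube -/
def Qo (n : ℕ) (r : ℝ) : Set (EC n) := {z | ∀ j, |(z j).re| < r ∧ |(z j).im| < r}
/-- closed cube -/
def Qc (n : ℕ) (r : ℝ) : Set (EC n) := {z | ∀ j, |(z j).re| ≤ r ∧ |(z j).im| ≤ r}

/-- the component `σ(∂_j, ∂̄_k)` -/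
def HH (σ : EC n → F2 n) (j k : Fin n) (z : EC n) : ℂ :=
  ((σ z ![ex j, ex k] : ℂ) + (σ z ![ey j, ey k] : ℂ) +
    Complex.I * ((σ z ![ex j, ey k] : ℂ) - (σ z ![ey j, ex k] : ℂ))) / 4
/-- the component `σ(∂_j, ∂_k)` -/
def BB (σ : EC n → F2 n) (j k : Fin n) (z : EC n) : ℂ :=
  ((σ z ![ex j, ex k] : ℂ) - (σ z ![ey j, ey k] : ℂ) -
    Complex.I * ((σ z ![ex j, ey k] : ℂ) + (σ z ![ey j, ex k] : ℂ))) / 4

/-- the number `τ(v, iv)` -/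
def qq (τ : F2 n) (v : EC n) : ℝ := τ ![v, Complex.I • v]

/-- the compact set `K` is negligible: its `(2n-4)`-dimensional Hausdorff measure is zero -/
def Negl (K : Set (EC n)) : Prop := IsCompact K ∧ μH[2 * (n : ℝ) - 4] K = 0

/-- `σ` is smooth, closed and nonnegative on the complex lines, on the open set `O` minus `K` -/
structure Good (O K : Set (EC n)) (σ : EC n → F2 n) : Prop where
  isOpen : IsOpen O
  smooth : ContDiffOn ℝ ∞ σ (O \ K)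
  closed : ∀ z ∈ O \ K, extDeriv σ z = 0
  nonneg : ∀ z ∈ O \ K, ∀ v : EC n, 0 ≤ qq (σ z) v

/-- test functions with support in the open set `U` -/
def IsTest (U : Set (EC n)) (φ : EC n → ℂ) : Prop :=
  ContDiff ℝ ∞ φ ∧ HasCompactSupport φ ∧ tsupport φ ⊆ U

/-- mollifiers of radius `ε` -/
structure Moll (ε : ℝ) (ρ : EC n → ℝ) : Prop where
  smooth : ContDiff ℝ ∞ ρ
  nonneg : ∀ y, 0 ≤ ρ y
  supp : ∀ y, ε ≤ ‖y‖ → ρ y = 0
  pos : ∀ y, ‖y‖ < ε → 0 < ρ y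
  int : ∫ y, ρ y = 1

/-- the convolution of `g` with `ρ` -/
def cv (ρ : EC n → ℝ) (g : EC n → ℂ) (z : EC n) : ℂ := ∫ w, (ρ (z - w) : ℂ) * g w

/-- the average of `σ` over the translations by `y`, with weight `ρ y` -/
def av (ρ : EC n → ℝ) (σ : EC n → F2 n) (z : EC n) : F2 n := ∫ y, ρ y • σ (z - y)

/-! ## Statements -/

/-- compactly supported solutions of the `∂̄`-equation in dimension at least two -/
def S_DBC : Prop := ∀ (n : ℕ), 2 ≤ n → ∀ r : ℝ, 0 < r → ∀ θ : Fin n → EC n → ℂ,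
  (∀ k, ContDiff ℝ ∞ (θ k)) → (∀ k z, z ∉ Qc n r → θ k z = 0) →
  (∀ k m z, db m (θ k) z = db k (θ m) z) →
  ∃ w : EC n → ℂ, ContDiff ℝ ∞ w ∧ (∀ z, z ∉ Qc n r → w z = 0) ∧ ∀ k z, db k w z = θ k z

/-- Hartogs-Ehrenpreis extension -/
def S_EH : Prop := ∀ (n : ℕ), 2 ≤ n → ∀ r r' R : ℝ, 0 < r → r < r' → r' < R →
  ∀ (om : Fin n → EC n → ℂ) (b : EC n → ℂ), (∀ k, ContDiffOn ℝ ∞ (om k) (Qo n R)) →
  (∀ k m, ∀ z ∈ Qo n R, db m (om k) z = db k (om m) z) →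
  ContDiffOn ℝ ∞ b (Qo n R \ Qc n r) → (∀ k, ∀ z ∈ Qo n R \ Qc n r, db k b z = om k z) →
  ∃ b' : EC n → ℂ, ContDiffOn ℝ ∞ b' (Qo n R) ∧ (∀ k, ∀ z ∈ Qo n R, db k b' z = om k z) ∧
    ∀ z ∈ Qo n R \ Qc n r', b' z = b z

/-- a function on a cube whose `∂̄` vanishes and which vanishes near the boundary is zero -/
def S_ID : Prop := ∀ (n : ℕ), 1 ≤ n → ∀ r R : ℝ, 0 < r → r < R → ∀ c : EC n → ℂ,
  ContDiffOn ℝ ∞ c (Qo n R) → (∀ k, ∀ z ∈ Qo n R, db k c z = 0) →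
  (∀ z ∈ Qo n R \ Qc n r, c z = 0) → ∀ z ∈ Qo n R, c z = 0

/-- closed forms in terms of their components -/
def S_COMP : Prop := ∀ (n : ℕ) (σ : EC n → F2 n) (z : EC n), DifferentiableAt ℝ σ z →
  (extDeriv σ z = 0 ↔
    (∀ l j k, dz l (HH σ j k) z - dz j (HH σ l k) z + db k (BB σ l j) z = 0) ∧
    (∀ l j k, dz l (BB σ j k) z + dz j (BB σ k l) z + dz k (BB σ l j) z = 0))

/-- forms with given components, and the quadratic form `σ(v, iv)` in terms of the components -/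
def S_MK : Prop := ∀ (n : ℕ),
  (∀ h b : Fin n → Fin n → EC n → ℂ, (∀ j k z, h k j z = - conj (h j k z)) →
    (∀ j k z, b k j z = - b j k z) →
    ∃ σ : EC n → F2 n, (∀ j k z, HH σ j k z = h j k z) ∧ (∀ j k z, BB σ j k z = b j k z) ∧
      ∀ s : Set (EC n), (∀ j k, ContDiffOn ℝ ∞ (h j k) s) → (∀ j k, ContDiffOn ℝ ∞ (b j k) s) →
        ContDiffOn ℝ ∞ σ s) ∧
  (∀ (σ τ : EC n → F2 n) (z : EC n), (∀ j k, HH σ j k z = HH τ j k z) →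
    (∀ j k, BB σ j k z = BB τ j k z) → σ z = τ z) ∧
  (∀ (σ : EC n → F2 n) (z v : EC n),
    qq (σ z) v = (-2 * Complex.I * ∑ j, ∑ k, HH σ j k z * v j * conj (v k)).re) ∧
  (∀ (σ : EC n → F2 n) (j k : Fin n) (z : EC n), HH σ k j z = - conj (HH σ j k z)) ∧
  (∀ (σ : EC n → F2 n) (j k : Fin n) (z : EC n), BB σ k j z = - BB σ j k z)

/-- the plane through the points of a negligible set, spanned by one complex coordinate and one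
more real coordinate direction, is a null set; a negligible set is a null set -/
def S_NULL : Prop := ∀ (n : ℕ), 3 ≤ n → ∀ K : Set (EC n), Negl K →
  volume K = 0 ∧ ∀ j m : Fin n, j ≠ m →
    volume {z : EC n | ∃ w ∈ K, ∃ (a : ℂ) (t : ℝ), z = w + a • ex j + t • ex m} = 0

/-- mass estimate -/
def S_MASS : Prop := S_NULL → ∀ (n : ℕ), 3 ≤ n → ∀ (O K : Set (EC n)) (σ : EC n → F2 n) (R : ℝ),
  0 < R → Good O K σ → Negl K → K ⊆ Qo n R → Qc n R ⊆ O →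
  ∃ C : ℝ, 0 ≤ C ∧ ∀ (j k : Fin n) (c : EC n) (s : ℝ), 0 < s →
    ∫⁻ z in Qc n R ∩ {z | z - c ∈ Qc n s}, ENNReal.ofReal ‖HH σ j k z‖ ≤
      ENNReal.ofReal (C * s ^ (2 * n - 2))

/-- cutoff functions near a negligible set, for a measure with the growth of a
`(2n-2)`-dimensional measure -/
def S_CUT : Prop := ∀ (n : ℕ), 3 ≤ n → ∀ (K : Set (EC n)), Negl K →
  ∀ (μ : Measure (EC n)) (C : ℝ), 0 ≤ C →
  (∀ (c : EC n) (s : ℝ), 0 < s → μ {z | z - c ∈ Qc n s} ≤ ENNReal.ofReal (C * s ^ (2 * n - 2))) →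
  ∀ W : Set (EC n), IsOpen W → K ⊆ W → ∀ η : ℝ, 0 < η →
  ∃ χ : EC n → ℝ, ContDiff ℝ ∞ χ ∧ HasCompactSupport χ ∧ tsupport χ ⊆ W ∧
    (∀ z, 0 ≤ χ z ∧ χ z ≤ 1) ∧ (∃ N : Set (EC n), IsOpen N ∧ K ⊆ N ∧ ∀ z ∈ N, χ z = 1) ∧
    ∫⁻ z, ENNReal.ofReal (|χ z| + ‖fderiv ℝ χ z‖ + ‖fderiv ℝ (fderiv ℝ χ) z‖) ∂μ ≤
      ENNReal.ofReal η

/-- the (1,1)-part is weakly pluriclosed across negligible sets -/
def S_WPC : Prop := S_NULL → S_MASS → S_CUT → S_COMP → ∀ (n : ℕ), 3 ≤ n →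
  ∀ (O K : Set (EC n)) (σ : EC n → F2 n) (R : ℝ),
  0 < R → Good O K σ → Negl K → K ⊆ Qo n R → Qc n R ⊆ O →
  (∀ j k, Integrable ((Qc n R).indicator (HH σ j k)) volume) ∧
  ∀ φ : EC n → ℂ, IsTest (Qo n R) φ → ∀ l j k m : Fin n,
    (∫ z in Qc n R, (HH σ j k z * db m (dz l φ) z - HH σ l k z * db m (dz j φ) z)) =
    ∫ z in Qc n R, (HH σ j m z * db k (dz l φ) z - HH σ l m z * db k (dz j φ) z)

/-- the smoothed (1,1)-part is smooth, pluriclosed and positive -/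
def S_REG : Prop := S_MK → ∀ (n : ℕ) (R ε : ℝ) (K : Set (EC n)) (σ : EC n → F2 n) (O : Set (EC n)),
  0 < ε → ε < R → Good O K σ → volume K = 0 → K ⊆ Qo n R → Qc n R ⊆ O →
  (∀ j k, Integrable ((Qc n R).indicator (HH σ j k)) volume) →
  (∀ φ : EC n → ℂ, IsTest (Qo n R) φ → ∀ l j k m : Fin n,
    (∫ z in Qc n R, (HH σ j k z * db m (dz l φ) z - HH σ l k z * db m (dz j φ) z)) =
    ∫ z in Qc n R, (HH σ j m z * db k (dz l φ) z - HH σ l m z * db k (dz j φ) z)) →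
  ∀ ρ : EC n → ℝ, Moll ε ρ →
  (∀ j k, ContDiff ℝ ∞ (cv ρ ((Qc n R).indicator (HH σ j k)))) ∧
  (∀ l j k m, ∀ z ∈ Qo n (R - ε),
    db m (dz l (cv ρ ((Qc n R).indicator (HH σ j k)))) z -
        db m (dz j (cv ρ ((Qc n R).indicator (HH σ l k)))) z =
      db k (dz l (cv ρ ((Qc n R).indicator (HH σ j m)))) z -
        db k (dz j (cv ρ ((Qc n R).indicator (HH σ l m)))) z) ∧
  (∀ z v : EC n, 0 ≤ (-2 * Complex.I *
    ∑ j, ∑ k, cv ρ ((Qc n R).indicator (HH σ j k)) z * v j * conj (v k)).re)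

/-- averaging in a shell: a closed form in the cube minus a smaller cube, strictly taming on a
compact shell, is changed into its average `av ρ σ` in the inner part of the shell, and is not
changed in the outer part -/
def S_AVG : Prop := ∀ (n : ℕ) (r₁ r₂ r₃ r₄ R : ℝ), 0 < r₁ → r₁ < r₂ → r₂ < r₃ → r₃ < r₄ → r₄ < R →
  ∀ σ : EC n → F2 n, ContDiffOn ℝ ∞ σ (Qo n R \ Qc n r₁) →
  (∀ z ∈ Qo n R \ Qc n r₁, extDeriv σ z = 0) →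
  (∀ z ∈ Qo n R \ Qc n r₁, ∀ v : EC n, 0 ≤ qq (σ z) v) →
  (∀ z ∈ Qc n r₄ \ Qo n r₃, ∀ v : EC n, v ≠ 0 → 0 < qq (σ z) v) →
  ∃ ε₀ : ℝ, 0 < ε₀ ∧ ∀ ε : ℝ, 0 < ε → ε < ε₀ → ∀ ρ : EC n → ℝ, Moll ε ρ →
  ∃ w : EC n → F2 n, ContDiffOn ℝ ∞ w (Qo n R \ Qc n r₂) ∧
    (∀ z ∈ Qo n R \ Qc n r₂, extDeriv w z = 0) ∧
    (∀ z ∈ Qo n R \ Qc n r₄, w z = σ z) ∧
    (∀ z ∈ Qo n r₃ \ Qc n r₂, w z = av ρ σ z) ∧
    (∀ z ∈ Qo n R \ Qc n r₂, ∀ v : EC n, 0 ≤ qq (w z) v) ∧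
    (∀ z ∈ Qc n r₄ \ Qo n r₃, ∀ v : EC n, v ≠ 0 → 0 < qq (w z) v)

/-- adding a small exact form which is positive in the inner cube -/
def S_ADD : Prop := ∀ (n : ℕ) (r₃ r₄ R : ℝ), 0 < r₃ → r₃ < r₄ → r₄ < R → ∀ (O : Set (EC n))
  (σ : EC n → F2 n), IsOpen O → Qc n R ⊆ O → ContDiffOn ℝ ∞ σ O → (∀ z ∈ O, extDeriv σ z = 0) →
  (∀ z ∈ Qc n r₄, ∀ v : EC n, 0 ≤ qq (σ z) v) →
  (∀ z ∈ Qc n r₄ \ Qo n r₃, ∀ v : EC n, v ≠ 0 → 0 < qq (σ z) v) →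
  ∃ w : EC n → F2 n, ContDiffOn ℝ ∞ w O ∧ (∀ z ∈ O, extDeriv w z = 0) ∧
    (∀ z ∈ O \ Qc n r₄, w z = σ z) ∧ (∀ z ∈ Qc n r₄, ∀ v : EC n, v ≠ 0 → 0 < qq (w z) v)

/-- the local theorem -/
def S_LOC : Prop := ∀ (n : ℕ), 3 ≤ n → ∀ (O K : Set (EC n)) (σ : EC n → F2 n) (R : ℝ),
  0 < R → Good O K σ → Negl K → K ⊆ Qo n R → Qc n R ⊆ O →
  (∀ z ∈ Qc n R \ Qo n R, ∀ v : EC n, v ≠ 0 → 0 < qq (σ z) v) →
  ∃ (w : EC n → F2 n) (r : ℝ), 0 < r ∧ r < R ∧ ContDiffOn ℝ ∞ w O ∧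
    (∀ z ∈ O, extDeriv w z = 0) ∧ (∀ z ∈ O \ Qc n r, w z = σ z) ∧
    ∀ z ∈ Qc n R, ∀ v : EC n, v ≠ 0 → 0 < qq (w z) v

end Pool.Agent.L7h17.RS
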