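import Pool.Agent.L7h17.RS.Final0
import Pool.Agent.L7h47.RS.Wpc

/-!
# Project RS: the local theorem
-/

set_option autoImplicit false

namespace Pool.Agent.L7h17.RS

theorem s_LOC : S_LOC := loc_of_wpc Pool.Agent.L7h47.RS.s_WPC

end Pool.Agent.L7h17.RS
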