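import Pool.Agent.L7h17.RS.Comp

/-!
# Project RS: forms with given components (helper17)
-/

set_option autoImplicit false

open Set Filter Topology MeasureTheory
open scoped ContDiff ComplexConjugate

noncomputable section

namespace Pool.Agent.L7h17.RS

variable {n : ℕ}

/-- the coordinate function `x_j` -/
def cx (j : Fin n) : EC n →L[ℝ] ℝ := Complex.reCLM.comp (ContinuousLinearMap.proj j)
/-- the coordinate function `y_j` -/
def cy (j : Fin n) : EC n →L[ℝ] ℝ := Complex.imCLM.comp (ContinuousLinearMap.proj j)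

/-- the two-form `f ∧ g` -/
def wd (f g : EC n →L[ℝ] ℝ) : F2 n :=
  ContinuousAlternatingMap.alternatizeUncurryFin
    (f.smulRight (ContinuousAlternatingMap.ofSubsingleton ℝ (EC n) ℝ (0 : Fin 1) g))

theorem wd_apply (f g : EC n →L[ℝ] ℝ) (v w : EC n) : wd f g ![v, w] = f v * g w - f w * g v := by
  unfold wd
  rw [ContinuousAlternatingMap.alternatizeUncurryFin_apply, Fin.sum_univ_two]
  simp
  rfl

theorem cx_ex (j k : Fin n) : cx j (ex k) = if j = k then 1 else 0 := by
  unfold cx ex
  by_cases h : j = k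
  · subst h; simp
  · simp [h]

theorem cx_ey (j k : Fin n) : cx j (ey k) = 0 := by
  unfold cx ey
  by_cases h : j = k
  · subst h; simp
  · simp [Pi.single_eq_of_ne h]

theorem cy_ex (j k : Fin n) : cy j (ex k) = 0 := by
  unfold cy ex
  by_cases h : j = k
  · subst h; simp
  · simp [Pi.single_eq_of_ne h]

theorem cy_ey (j k : Fin n) : cy j (ey k) = if j = k then 1 else 0 := by
  unfold cy ey
  by_cases h : j = k
  · subst h; simp
  · simp [h]

/-- the form with given components -/
def mk (h b : Fin n → Fin n → EC n → ℂ) (z : EC n) : F2 n :=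
  ∑ j, ∑ k, ((b j k z).re • (wd (cx j) (cx k) - wd (cy j) (cy k))
    - (b j k z).im • (wd (cx j) (cy k) + wd (cy j) (cx k))
    + (h j k z).re • (wd (cx j) (cx k) + wd (cy j) (cy k))
    + (h j k z).im • (wd (cx j) (cy k) - wd (cy j) (cx k)))

theorem mk_apply (h b : Fin n → Fin n → EC n → ℂ) (z v w : EC n) :
    mk h b z ![v, w] = ∑ j, ∑ k,
      ((b j k z).re * (wd (cx j) (cx k) ![v, w] - wd (cy j) (cy k) ![v, w])
    - (b j k z).im * (wd (cx j) (cy k) ![v, w] + wd (cy j) (cx k) ![v, w])
    + (h j k z).re * (wd (cx j) (cx k) ![v, w] + wd (cy j) (cy k) ![v, w])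
    + (h j k z).im * (wd (cx j) (cy k) ![v, w] - wd (cy j) (cx k) ![v, w])) := by
  unfold mk
  simp only [ContinuousAlternatingMap.sum_apply, ContinuousAlternatingMap.add_apply,
    ContinuousAlternatingMap.sub_apply, ContinuousAlternatingMap.smul_apply, smul_eq_mul]

theorem sum_pair (a b : Fin n) (F : Fin n → Fin n → ℝ) :
    ∑ j, ∑ k, F j k * ((if j = a then 1 else 0) * (if k = b then 1 else 0)) = F a b := by
  rw [Finset.sum_eq_single a]
  · rw [Finset.sum_eq_single b]
    · simp
    · intro k _ hk; simp [hk]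
    · intro h; exact absurd (Finset.mem_univ _) h
  · intro j _ hj
    simp [hj]
  · intro h; exact absurd (Finset.mem_univ _) h

theorem mk_xx (h b : Fin n → Fin n → EC n → ℂ) (z : EC n) (p q : Fin n) :
    mk h b z ![ex p, ex q] = (b p q z).re - (b q p z).re + (h p q z).re - (h q p z).re := by
  rw [mk_apply]
  have e : ∀ j k : Fin n, ((b j k z).re * (wd (cx j) (cx k) ![ex p, ex q] - wd (cy j) (cy k) ![ex p, ex q])
    - (b j k z).im * (wd (cx j) (cy k) ![ex p, ex q] + wd (cy j) (cx k) ![ex p, ex q])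
    + (h j k z).re * (wd (cx j) (cx k) ![ex p, ex q] + wd (cy j) (cy k) ![ex p, ex q])
    + (h j k z).im * (wd (cx j) (cy k) ![ex p, ex q] - wd (cy j) (cx k) ![ex p, ex q])) =
      ((b j k z).re + (h j k z).re) * ((if j = p then 1 else 0) * (if k = q then 1 else 0)) -
      ((b j k z).re + (h j k z).re) * ((if j = q then 1 else 0) * (if k = p then 1 else 0)) := by
    intro j k
    simp only [wd_apply, cx_ex, cy_ex]
    ring
  simp only [e, Finset.sum_sub_distrib]
  rw [sum_pair p q fun j k => (b j k z).re + (h j k z).re,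
    sum_pair q p fun j k => (b j k z).re + (h j k z).re]
  ring

theorem mk_yy (h b : Fin n → Fin n → EC n → ℂ) (z : EC n) (p q : Fin n) :
    mk h b z ![ey p, ey q] = - (b p q z).re + (b q p z).re + (h p q z).re - (h q p z).re := by
  rw [mk_apply]
  have e : ∀ j k : Fin n, ((b j k z).re * (wd (cx j) (cx k) ![ey p, ey q] - wd (cy j) (cy k) ![ey p, ey q])
    - (b j k z).im * (wd (cx j) (cy k) ![ey p, ey q] + wd (cy j) (cx k) ![ey p, ey q])
    + (h j k z).re * (wd (cx j) (cx k) ![ey p, ey q] + wd (cy j) (cy k) ![ey p, ey q])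
    + (h j k z).im * (wd (cx j) (cy k) ![ey p, ey q] - wd (cy j) (cx k) ![ey p, ey q])) =
      (- (b j k z).re + (h j k z).re) * ((if j = p then 1 else 0) * (if k = q then 1 else 0)) -
      (- (b j k z).re + (h j k z).re) * ((if j = q then 1 else 0) * (if k = p then 1 else 0)) := by
    intro j k
    simp only [wd_apply, cx_ey, cy_ey]
    ring
  simp only [e, Finset.sum_sub_distrib]
  rw [sum_pair p q fun j k => - (b j k z).re + (h j k z).re,
    sum_pair q p fun j k => - (b j k z).re + (h j k z).re]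
  ring

theorem mk_xy (h b : Fin n → Fin n → EC n → ℂ) (z : EC n) (p q : Fin n) :
    mk h b z ![ex p, ey q] = - (b p q z).im + (b q p z).im + (h p q z).im + (h q p z).im := by
  rw [mk_apply]
  have e : ∀ j k : Fin n, ((b j k z).re * (wd (cx j) (cx k) ![ex p, ey q] - wd (cy j) (cy k) ![ex p, ey q])
    - (b j k z).im * (wd (cx j) (cy k) ![ex p, ey q] + wd (cy j) (cx k) ![ex p, ey q])
    + (h j k z).re * (wd (cx j) (cx k) ![ex p, ey q] + wd (cy j) (cy k) ![ex p, ey q])
    + (h j k z).im * (wd (cx j) (cy k) ![ex p, ey q] - wd (cy j) (cx k) ![ex p, ey q])) =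
      (- (b j k z).im + (h j k z).im) * ((if j = p then 1 else 0) * (if k = q then 1 else 0)) +
      ((b j k z).im + (h j k z).im) * ((if j = q then 1 else 0) * (if k = p then 1 else 0)) := by
    intro j k
    simp only [wd_apply, cx_ey, cy_ey, cx_ex, cy_ex]
    ring
  simp only [e, Finset.sum_add_distrib]
  rw [sum_pair p q fun j k => - (b j k z).im + (h j k z).im,
    sum_pair q p fun j k => (b j k z).im + (h j k z).im]
  ring

theorem mk_smooth (h b : Fin n → Fin n → EC n → ℂ) (s : Set (EC n))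
    (hh : ∀ j k, ContDiffOn ℝ ∞ (h j k) s) (hb : ∀ j k, ContDiffOn ℝ ∞ (b j k) s) :
    ContDiffOn ℝ ∞ (mk h b) s := by
  unfold mk
  have hre : ∀ f : EC n → ℂ, ContDiffOn ℝ ∞ f s → ContDiffOn ℝ ∞ (fun z => (f z).re) s :=
    fun f hf => Complex.reCLM.contDiff.comp_contDiffOn hf
  have him : ∀ f : EC n → ℂ, ContDiffOn ℝ ∞ f s → ContDiffOn ℝ ∞ (fun z => (f z).im) s :=
    fun f hf => Complex.imCLM.contDiff.comp_contDiffOn hf
  refine ContDiffOn.sum fun j _ => ContDiffOn.sum fun k _ => ?_
  exact ((((hre _ (hb j k)).smul contDiffOn_const).sub ((him _ (hb j k)).smul contDiffOn_const)).add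
    ((hre _ (hh j k)).smul contDiffOn_const)).add ((him _ (hh j k)).smul contDiffOn_const)

theorem HH_symm (σ : EC n → F2 n) (j k : Fin n) (z : EC n) : HH σ k j z = - conj (HH σ j k z) := by
  unfold HH
  rw [alt2 (σ z) (ex k) (ex j), alt2 (σ z) (ey k) (ey j), alt2 (σ z) (ex k) (ey j),
    alt2 (σ z) (ey k) (ex j)]
  simp only [map_div₀, map_add, map_sub, map_mul, Complex.conj_ofReal, Complex.conj_I]
  rw [map_ofNat]
  push_cast
  ring

theorem BB_symm (σ : EC n → F2 n) (j k : Fin n) (z : EC n) : BB σ k j z = - BB σ j k z := by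
  unfold BB
  rw [alt2 (σ z) (ex k) (ex j), alt2 (σ z) (ey k) (ey j), alt2 (σ z) (ex k) (ey j),
    alt2 (σ z) (ey k) (ex j)]
  push_cast
  ring

/-- the bilinear expansion -/
theorem bil_exp (τ : F2 n) (v w : EC n) : τ ![v, w] = ∑ j, ∑ k,
    ((v j).re * (w k).re * τ ![ex j, ex k] + (v j).re * (w k).im * τ ![ex j, ey k] +
      (v j).im * (w k).re * τ ![ey j, ex k] + (v j).im * (w k).im * τ ![ey j, ey k]) := by
  have h1 : τ ![v, w] = ∑ j, ((v j).re * τ ![ex j, w] + (v j).im * τ ![ey j, w]) :=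
    lin_exp (lin1 τ w) v
  have h2 : ∀ u, τ ![u, w] = ∑ k, ((w k).re * τ ![u, ex k] + (w k).im * τ ![u, ey k]) := by
    intro u
    rw [alt2]
    have h3 : τ ![w, u] = ∑ k, ((w k).re * τ ![ex k, u] + (w k).im * τ ![ey k, u]) :=
      lin_exp (lin1 τ u) w
    rw [h3, ← Finset.sum_neg_distrib]
    refine Finset.sum_congr rfl fun k _ => ?_
    rw [alt2 τ u (ex k), alt2 τ u (ey k)]
    ring
  rw [h1]
  refine Finset.sum_congr rfl fun j _ => ?_
  rw [h2 (ex j), h2 (ey j), Finset.mul_sum, Finset.mul_sum, ← Finset.sum_add_distrib]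
  refine Finset.sum_congr rfl fun k _ => ?_
  ring

theorem qq_formula (σ : EC n → F2 n) (z v : EC n) :
    qq (σ z) v = (-2 * Complex.I * ∑ j, ∑ k, HH σ j k z * v j * conj (v k)).re := by
  set τ := σ z with hτ
  set A : Fin n → Fin n → ℝ := fun j k =>
    - (v j).re * (v k).im * τ ![ex j, ex k] + (v j).re * (v k).re * τ ![ex j, ey k] -
      (v j).im * (v k).im * τ ![ey j, ex k] + (v j).im * (v k).re * τ ![ey j, ey k] with hA
  have h1 : qq τ v = ∑ j, ∑ k, A j k := by
    unfold qq
    rw [bil_exp]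
    refine Finset.sum_congr rfl fun j _ => Finset.sum_congr rfl fun k _ => ?_
    simp only [hA, Pi.smul_apply, smul_eq_mul, Complex.mul_re, Complex.mul_im, Complex.I_re,
      Complex.I_im]
    ring
  have h2 : (-2 * Complex.I * ∑ j, ∑ k, HH σ j k z * v j * conj (v k)).re =
      ∑ j, ∑ k, (A j k + A k j) / 2 := by
    rw [Finset.mul_sum, Complex.re_sum]
    refine Finset.sum_congr rfl fun j _ => ?_
    rw [Finset.mul_sum, Complex.re_sum]
    refine Finset.sum_congr rfl fun k _ => ?_
    simp only [hA]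
    rw [alt2 τ (ex k) (ex j), alt2 τ (ey k) (ey j), alt2 τ (ex k) (ey j), alt2 τ (ey k) (ex j)]
    unfold HH
    rw [← hτ]
    simp only [Complex.mul_re, Complex.mul_im, Complex.conj_re, Complex.conj_im, Complex.I_re,
      Complex.I_im, Complex.add_re, Complex.add_im, Complex.sub_re, Complex.sub_im,
      Complex.div_re, Complex.div_im, Complex.ofReal_re, Complex.ofReal_im, Complex.neg_re,
      Complex.neg_im]
    norm_num
    ring
  rw [h1, h2]
  simp only [add_div, Finset.sum_add_distrib]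
  have h3 : ∑ j, ∑ k, A k j / 2 = ∑ j, ∑ k, A j k / 2 := Finset.sum_comm
  rw [h3, ← Finset.sum_add_distrib]
  refine Finset.sum_congr rfl fun j _ => ?_
  rw [← Finset.sum_add_distrib]
  refine Finset.sum_congr rfl fun k _ => ?_
  ring

theorem s_MK : S_MK := by
  intro n
  refine ⟨fun h b hh hb => ⟨mk h b, fun j k z => ?_, fun j k z => ?_,
    fun s h1 h2 => mk_smooth h b s h1 h2⟩, fun σ τ z h1 h2 => ?_, qq_formula, HH_symm, BB_symm⟩
  · unfold HH
    rw [alt2 _ (ey j) (ex k), mk_xx, mk_yy, mk_xy, mk_xy, hh j k z, hb j k z]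
    apply Complex.ext
    · simp
      ring
    · simp
      ring
  · unfold BB
    rw [alt2 _ (ey j) (ex k), mk_xx, mk_yy, mk_xy, mk_xy, hh j k z, hb j k z]
    apply Complex.ext
    · simp
      ring
    · simp
      ring
  · have key : ∀ j k, σ z ![ex j, ex k] = τ z ![ex j, ex k] ∧
        σ z ![ey j, ey k] = τ z ![ey j, ey k] ∧ σ z ![ex j, ey k] = τ z ![ex j, ey k] := by
      intro j k
      have e1 := h1 j k
      have e2 := h2 j k
      unfold HH at e1
      unfold BB at e2
      have r1 := congrArg Complex.re e1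
      have i1 := congrArg Complex.im e1
      have r2 := congrArg Complex.re e2
      have i2 := congrArg Complex.im e2
      simp at r1 i1 r2 i2
      refine ⟨by linarith, by linarith, by linarith⟩
    exact ext2 (fun j k => (key j k).1) (fun j k => (key j k).2.2) (fun j k => (key j k).2.1)

end Pool.Agent.L7h17.RS
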