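import Pool.Agent.L7h17.RS.Step
import Pool.Agent.L7h26.RS.Dbc
import Pool.Agent.L7h26.RS.Eh
import Pool.Agent.L7h89.RS.Cut
import Pool.Agent.L7h89.RS.Null
import Pool.Agent.L7h76.RS.Add
import Pool.Agent.L7h76.RS.Avg
import Pool.Agent.L7h76.RS.Reg
import Pool.Agent.L7h47.RS.Mass

/-!
# Project RS: all parts but one
-/

set_option autoImplicit false

namespace Pool.Agent.L7h17.RS

theorem loc_of_wpc (h : S_WPC) : S_LOC :=
  loc Pool.Agent.L7h26.RS.s_EH Pool.Agent.L7h26.RS.s_ID Pool.Agent.L7h89.RS.s_NULL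
    Pool.Agent.L7h47.RS.s_MASS Pool.Agent.L7h89.RS.s_CUT h Pool.Agent.L7h76.RS.s_REG
    Pool.Agent.L7h76.RS.s_AVG Pool.Agent.L7h76.RS.s_ADD

end Pool.Agent.L7h17.RS
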