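import Pool.Agent.L7h17.RS.Av

/-!
# Project RS: the inner form (helper17)

Given smooth functions `h j k` on a cube with the symmetry and the pluriclosedness of the
components of a (1,1)-form, and a closed form `w` in a shell with the (1,1)-components `h j k`,
there is a closed form in the cube with (1,1)-components `h j k`, equal to `w` in the shell.
-/

set_option autoImplicit false

open Set Filter Topology MeasureTheory
open scoped ContDiff ComplexConjugate

noncomputable section

namespace Pool.Agent.L7h17.RS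

variable {n : ℕ}

theorem inner_form (hEH : S_EH) (hID : S_ID) (hn : 2 ≤ n) {r r' R : ℝ}
    (hr : 0 < r) (hrr : r < r') (hrR : r' < R) {h : Fin n → Fin n → EC n → ℂ}
    (hs : ∀ j k, ContDiffOn ℝ ∞ (h j k) (Qo n R)) (hsym : ∀ j k z, h k j z = - conj (h j k z))
    (hpc : ∀ l j k m, ∀ z ∈ Qo n R, db m (dz l (h j k)) z - db m (dz j (h l k)) z =
      db k (dz l (h j m)) z - db k (dz j (h l m)) z)
    {w : EC n → F2 n} (hw : ContDiffOn ℝ ∞ w (Qo n R \ Qc n r))
    (hwc : ∀ z ∈ Qo n R \ Qc n r, extDeriv w z = 0)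
    (hwh : ∀ z ∈ Qo n R \ Qc n r, ∀ j k, HH w j k z = h j k z) :
    ∃ τ : EC n → F2 n, ContDiffOn ℝ ∞ τ (Qo n R) ∧ (∀ z ∈ Qo n R, extDeriv τ z = 0) ∧
      (∀ z, ∀ j k, HH τ j k z = h j k z) ∧ ∀ z ∈ Qo n R \ Qc n r', τ z = w z := by
  have hRo := isOpen_Qo n R
  have hSo : IsOpen (Qo n R \ Qc n r) := hRo.sdiff (isClosed_Qc n r)
  have hS'o : IsOpen (Qo n R \ Qc n r') := hRo.sdiff (isClosed_Qc n r')
  have hSS : Qo n R \ Qc n r' ⊆ Qo n R \ Qc n r := fun z hz =>
    ⟨hz.1, fun h1 => hz.2 (Qc_mono hrr.le h1)⟩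
  -- the (0,1)-forms
  set om : Fin n → Fin n → Fin n → EC n → ℂ := fun l j k z =>
    - (dz l (h j k) z - dz j (h l k) z) with hom
  have hdz : ∀ l j k, ContDiffOn ℝ ∞ (dz l (h j k)) (Qo n R) := fun l j k =>
    dz_smoothOn hRo (hs j k) l
  have hdzd : ∀ l j k, ∀ z ∈ Qo n R, DifferentiableAt ℝ (dz l (h j k)) z := fun l j k z hz =>
    ((hdz l j k).contDiffAt (hRo.mem_nhds hz)).differentiableAt (by simp)
  have homs : ∀ l j k, ContDiffOn ℝ ∞ (om l j k) (Qo n R) := fun l j k =>
    ((hdz l j k).sub (hdz j l k)).neg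
  have homdb : ∀ l j k m, ∀ z ∈ Qo n R, db m (om l j k) z =
      - (db m (dz l (h j k)) z - db m (dz j (h l k)) z) := by
    intro l j k m z hz
    rw [hom]
    simp only
    rw [db_neg, db_sub (hdzd l j k z hz) (hdzd j l k z hz)]
  have homc : ∀ l j k m, ∀ z ∈ Qo n R, db m (om l j k) z = db k (om l j m) z := by
    intro l j k m z hz
    rw [homdb l j k m z hz, homdb l j m k z hz, hpc l j k m z hz]
  have homanti : ∀ l j k z, om j l k z = - om l j k z := by
    intro l j k z
    simp only [hom]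
    ring
  -- the derivatives of the components of `w`
  have hBw : ∀ l j, ContDiffOn ℝ ∞ (BB w l j) (Qo n R \ Qc n r) := fun l j => BB_smooth hw l j
  have hwd : ∀ z ∈ Qo n R \ Qc n r, DifferentiableAt ℝ w z := fun z hz =>
    (hw.contDiffAt (hSo.mem_nhds hz)).differentiableAt (by simp)
  have hBdb : ∀ l j k, ∀ z ∈ Qo n R \ Qc n r, db k (BB w l j) z = om l j k z := by
    intro l j k z hz
    have h1 := ((s_COMP n w z (hwd z hz)).1 (hwc z hz)).1 l j k
    have e1 : ∀ a b c, dz a (HH w b c) z = dz a (h b c) z := fun a b c =>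
      dz_congr (ev_of_eqOn hSo (fun y hy => hwh y hy b c) hz) a
    rw [e1, e1] at h1
    simp only [hom]
    linear_combination h1
  -- extension of the (2,0)-components
  have hex : ∀ l j, ∃ b' : EC n → ℂ, ContDiffOn ℝ ∞ b' (Qo n R) ∧
      (∀ k, ∀ z ∈ Qo n R, db k b' z = om l j k z) ∧ ∀ z ∈ Qo n R \ Qc n r', b' z = BB w l j z :=
    fun l j => hEH n hn r r' R hr hrr hrR (om l j) (BB w l j) (homs l j)
      (fun k m z hz => homc l j k m z hz) (hBw l j) (fun k z hz => hBdb l j k z hz)
  choose b' hb's hb'd hb'e using hex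
  set bb : Fin n → Fin n → EC n → ℂ := fun l j z =>
    if l < j then b' l j z else if j < l then - b' j l z else 0 with hbb
  have hbb1 : ∀ l j, l < j → bb l j = b' l j := fun l j hlj => by
    funext z; simp only [hbb]; rw [if_pos hlj]
  have hbb2 : ∀ l j, j < l → bb l j = fun z => - b' j l z := fun l j hlj => by
    funext z; simp only [hbb]; rw [if_neg (not_lt.2 hlj.le), if_pos hlj]
  have hbb3 : ∀ l, bb l l = fun _ => 0 := fun l => by
    funext z; simp only [hbb]; rw [if_neg (lt_irrefl _), if_neg (lt_irrefl _)]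
  have hbanti : ∀ j k z, bb k j z = - bb j k z := by
    intro j k z
    rcases lt_trichotomy j k with h1 | h1 | h1
    · rw [hbb2 k j h1, hbb1 j k h1]
    · subst h1; rw [hbb3]; simp
    · rw [hbb1 k j h1, hbb2 j k h1]; simp
  have hbbs : ∀ l j, ContDiffOn ℝ ∞ (bb l j) (Qo n R) := by
    intro l j
    rcases lt_trichotomy l j with h1 | h1 | h1
    · rw [hbb1 l j h1]; exact hb's l j
    · subst h1; rw [hbb3]; exact contDiffOn_const
    · rw [hbb2 l j h1]; exact (hb's j l).neg
  have hbbd : ∀ l j k, ∀ z ∈ Qo n R, db k (bb l j) z = om l j k z := by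
    intro l j k z hz
    rcases lt_trichotomy l j with h1 | h1 | h1
    · rw [hbb1 l j h1]; exact hb'd l j k z hz
    · subst h1
      rw [hbb3, db_zero]
      simp only [hom]; ring
    · rw [hbb2 l j h1, db_neg, hb'd j l k z hz, homanti l j k z, neg_neg]
  have hbbe : ∀ l j, ∀ z ∈ Qo n R \ Qc n r', bb l j z = BB w l j z := by
    intro l j z hz
    rcases lt_trichotomy l j with h1 | h1 | h1
    · rw [hbb1 l j h1]; exact hb'e l j z hz
    · subst h1
      rw [hbb3]
      have := BB_symm w l l z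
      have h2 : (2 : ℂ) * BB w l l z = 0 := by linear_combination this
      rcases mul_eq_zero.1 h2 with h3 | h3
      · norm_num at h3
      · exact h3.symm
    · rw [hbb2 l j h1]
      simp only
      rw [hb'e j l z hz, BB_symm w l j z, neg_neg]
  obtain ⟨τ, hτH, hτB, hτs⟩ := (s_MK n).1 h bb hsym hbanti
  have hτsm : ContDiffOn ℝ ∞ τ (Qo n R) := hτs _ hs hbbs
  have hτHf : ∀ j k, HH τ j k = h j k := fun j k => funext (hτH j k)
  have hτBf : ∀ j k, BB τ j k = bb j k := fun j k => funext (hτB j k)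
  have hτe : ∀ z ∈ Qo n R \ Qc n r', τ z = w z := fun z hz =>
    (s_MK n).2.1 τ w z (fun j k => by rw [hτH, hwh z (hSS hz)])
      (fun j k => by rw [hτB, hbbe j k z hz])
  refine ⟨τ, hτsm, fun z hz => ?_, fun z j k => hτH j k z, hτe⟩
  have hτd : DifferentiableAt ℝ τ z :=
    (hτsm.contDiffAt (hRo.mem_nhds hz)).differentiableAt (by simp)
  refine (s_COMP n τ z hτd).2 ⟨fun l j k => ?_, fun l j k => ?_⟩
  · rw [hτHf, hτHf, hτBf, hbbd l j k z hz]
    simp only [hom]
    ring
  · -- the (3,0)-component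
    set c : EC n → ℂ := fun y => dz l (bb j k) y + dz j (bb k l) y + dz k (bb l j) y with hc
    have hd1 : ∀ a b d, ContDiffOn ℝ ∞ (dz a (bb b d)) (Qo n R) := fun a b d =>
      dz_smoothOn hRo (hbbs b d) a
    have hdd : ∀ a b d, ∀ y ∈ Qo n R, DifferentiableAt ℝ (dz a (bb b d)) y := fun a b d y hy =>
      ((hd1 a b d).contDiffAt (hRo.mem_nhds hy)).differentiableAt (by simp)
    have hdbdz : ∀ a b d m, ∀ y ∈ Qo n R, db m (dz a (bb b d)) y =
        - (dz a (dz b (h d m)) y - dz a (dz d (h b m)) y) := by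
      intro a b d m y hy
      rw [db_dz ((hbbs b d).contDiffAt (hRo.mem_nhds hy))]
      have e1 : dz a (db m (bb b d)) y = dz a (om b d m) y :=
        dz_congr (ev_of_eqOn hRo (fun x hx => hbbd b d m x hx) hy) a
      rw [e1]
      simp only [hom]
      rw [dz_neg, dz_sub (hdzd b d m y hy) (hdzd d b m y hy)]
    have hh : ∀ b d, ∀ y ∈ Qo n R, ContDiffAt ℝ ∞ (h b d) y := fun b d y hy =>
      (hs b d).contDiffAt (hRo.mem_nhds hy)
    have hcz := hID n (by omega) r' R (hr.trans hrr) hrR c
      (((hd1 l j k).add (hd1 j k l)).add (hd1 k l j))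
      (by
        intro m y hy
        have e1 : db m c y = db m (dz l (bb j k)) y + db m (dz j (bb k l)) y +
            db m (dz k (bb l j)) y := by
          rw [hc]
          rw [db_add (f := fun y => dz l (bb j k) y + dz j (bb k l) y)
            ((hdd l j k y hy).add (hdd j k l y hy)) (hdd k l j y hy),
            db_add (hdd l j k y hy) (hdd j k l y hy)]
        rw [e1, hdbdz l j k m y hy, hdbdz j k l m y hy, hdbdz k l j m y hy,
          dz_dz (hh k m y hy) j l, dz_dz (hh j m y hy) k l, dz_dz (hh l m y hy) k j]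
        ring)
      (by
        intro y hy
        have h1 := ((s_COMP n w y (hwd y (hSS hy))).1 (hwc y (hSS hy))).2 l j k
        have e1 : ∀ a b d, dz a (bb b d) y = dz a (BB w b d) y := fun a b d =>
          dz_congr (ev_of_eqOn hS'o (fun x hx => hbbe b d x hx) hy) a
        simp only [hc]
        rw [e1, e1, e1]
        exact h1) z hz
    rw [hτBf, hτBf, hτBf]
    exact hcz

end Pool.Agent.L7h17.RS
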