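import Pool.Agent.L7h17.RS.Inner

/-!
# Project RS: the local theorem (helper17)
-/

set_option autoImplicit false

open Set Filter Topology MeasureTheory
open scoped ContDiff ComplexConjugate

noncomputable section

namespace Pool.Agent.L7h17.RS

variable {n : ℕ}

theorem qq_smul (τ : F2 n) (c : ℝ) (v : EC n) : qq τ (c • v) = c ^ 2 * qq τ v := by
  unfold qq
  rw [smul_comm Complex.I c v]
  have h1 : τ ![c • v, c • (Complex.I • v)] = c * τ ![v, c • (Complex.I • v)] :=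
    (lin1 τ (c • (Complex.I • v))).map_smul c v
  rw [h1, alt2 τ v (c • (Complex.I • v))]
  have h2 : τ ![c • (Complex.I • v), v] = c * τ ![Complex.I • v, v] := (lin1 τ v).map_smul c _
  rw [h2, alt2 τ (Complex.I • v) v]
  ring

theorem continuousOn_qq {σ : EC n → F2 n} {s : Set (EC n)} (h : ContinuousOn σ s) :
    ContinuousOn (fun p : EC n × EC n => qq (σ p.1) p.2) (s ×ˢ univ) := by
  have h0 : ∀ a b : EC n, ContinuousOn (fun p : EC n × EC n => σ p.1 ![a, b]) (s ×ˢ univ) :=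
    fun a b => (ContinuousAlternatingMap.apply ℝ (EC n) ℝ ![a, b]).continuous.comp_continuousOn
      (h.comp continuousOn_fst fun p hp => hp.1)
  have h1 : (fun p : EC n × EC n => qq (σ p.1) p.2) = fun p => ∑ j, ∑ k,
    ((p.2 j).re * ((Complex.I • p.2) k).re * σ p.1 ![ex j, ex k] +
      (p.2 j).re * ((Complex.I • p.2) k).im * σ p.1 ![ex j, ey k] +
      (p.2 j).im * ((Complex.I • p.2) k).re * σ p.1 ![ey j, ex k] +
      (p.2 j).im * ((Complex.I • p.2) k).im * σ p.1 ![ey j, ey k]) := by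
    funext p
    exact bil_exp _ _ _
  rw [h1]
  refine continuousOn_finsetSum _ fun j _ => continuousOn_finsetSum _ fun k _ => ?_
  have h2 : Continuous fun p : EC n × EC n => (p.2 j).re := by fun_prop
  have h3 : Continuous fun p : EC n × EC n => (p.2 j).im := by fun_prop
  have h4 : Continuous fun p : EC n × EC n => ((Complex.I • p.2) k).re := by
    simp only [Pi.smul_apply]; fun_prop
  have h5 : Continuous fun p : EC n × EC n => ((Complex.I • p.2) k).im := by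
    simp only [Pi.smul_apply]; fun_prop
  exact ((((h2.mul h4).continuousOn.mul (h0 _ _)).add ((h2.mul h5).continuousOn.mul (h0 _ _))).add
    ((h3.mul h4).continuousOn.mul (h0 _ _))).add ((h3.mul h5).continuousOn.mul (h0 _ _))

/-- strict positivity near the boundary -/
theorem pos_near {σ : EC n → F2 n} {r R : ℝ} (hR : 0 < R) (hrR : r < R)
    (hc : ContinuousOn σ (Qc n R \ Qo n r))
    (hpos : ∀ z ∈ Qc n R \ Qo n R, ∀ v : EC n, v ≠ 0 → 0 < qq (σ z) v) :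
    ∃ r', r < r' ∧ 0 < r' ∧ r' < R ∧ ∀ z ∈ Qc n R \ Qo n r', ∀ v : EC n, v ≠ 0 → 0 < qq (σ z) v := by
  have hA : IsCompact (Qc n R \ Qo n r) := (isCompact_Qc n R).diff (isOpen_Qo n r)
  have hS : IsCompact (Metric.sphere (0 : EC n) 1) := isCompact_sphere _ _
  set B : Set (EC n × EC n) := ((Qc n R \ Qo n r) ×ˢ Metric.sphere (0 : EC n) 1) ∩
    {p | qq (σ p.1) p.2 ≤ 0} with hB
  have hBc : IsCompact B := by
    have h1 : ContinuousOn (fun p : EC n × EC n => qq (σ p.1) p.2)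
        ((Qc n R \ Qo n r) ×ˢ Metric.sphere (0 : EC n) 1) :=
      (continuousOn_qq hc).mono (prod_mono le_rfl (subset_univ _))
    have h2 := h1.preimage_isClosed_of_isClosed (hA.prod hS).isClosed (isClosed_Iic (a := (0 : ℝ)))
    exact (hA.prod hS).of_isClosed_subset h2 inter_subset_left
  have hZc : IsCompact (Prod.fst '' B) := hBc.image continuous_fst
  have hZR : Prod.fst '' B ⊆ Qo n R := by
    rintro _ ⟨p, hp, rfl⟩
    by_contra h
    have h1 := hpos p.1 ⟨hp.1.1.1, h⟩ p.2 (by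
      intro h0
      have := hp.1.2
      rw [h0] at this
      simp at this)
    exact absurd hp.2 (not_le.2 h1)
  obtain ⟨r0, hr0, hr0R, hr0Z⟩ := exists_radius hZc hR hZR
  refine ⟨max r0 ((r + R) / 2), lt_max_of_lt_right (by linarith), lt_max_of_lt_left hr0,
    max_lt hr0R (by linarith), fun z hz v hv => ?_⟩
  by_contra hcon
  rw [not_lt] at hcon
  have hv0 : 0 < ‖v‖ := norm_pos_iff.2 hv
  have h1 : z ∈ Prod.fst '' B := by
    refine ⟨(z, ‖v‖⁻¹ • v), ⟨⟨⟨hz.1, fun h => hz.2 (Qo_mono ?_ h)⟩, ?_⟩, ?_⟩, rfl⟩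
    · exact (by linarith : r ≤ (r + R) / 2).trans (le_max_right _ _)
    · rw [mem_sphere_zero_iff_norm, norm_smul, norm_inv, norm_norm, inv_mul_cancel₀ hv0.ne']
    · show qq (σ z) (‖v‖⁻¹ • v) ≤ 0
      rw [qq_smul]
      exact mul_nonpos_of_nonneg_of_nonpos (by positivity) hcon
  exact hz.2 (Qo_mono (le_max_left _ _) (hr0Z h1))

theorem loc (hEH : S_EH) (hID : S_ID) (hNULL : S_NULL) (hMASS : S_MASS) (hCUT : S_CUT)
    (hWPC : S_WPC) (hREG : S_REG) (hAVG : S_AVG) (hADD : S_ADD) : S_LOC := by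
  intro n hn O K σ R hR hG hK hKR hRO hpos
  obtain ⟨rK, hrK0, hrKR, hKr⟩ := exists_radius hK.1 hR hKR
  have hcont : ContinuousOn σ (Qc n R \ Qo n rK) := hG.smooth.continuousOn.mono fun z hz =>
    ⟨hRO hz.1, fun h => hz.2 (hKr h)⟩
  obtain ⟨r1, hr1K, hr10, hr1R, hr1pos⟩ := pos_near hR hrKR hcont hpos
  -- the radii
  set δ := (R - r1) / 5 with hδ
  have hδ0 : 0 < δ := by rw [hδ]; linarith
  have h5 : r1 + 5 * δ = R := by rw [hδ]; ring
  have hKr1 : K ⊆ Qo n r1 := hKr.trans (Qo_mono hr1K.le)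
  have hKc1 : K ⊆ Qc n r1 := hKr1.trans (Qo_sub_Qc n r1)
  have hQRO : Qo n R ⊆ O := (Qo_sub_Qc n R).trans hRO
  have hsub : Qo n R \ Qc n r1 ⊆ O \ K := fun z hz => ⟨hQRO hz.1, fun h => hz.2 (hKc1 h)⟩
  have hOK : IsOpen (O \ K) := hG.isOpen.sdiff hK.1.isClosed
  -- averaging
  obtain ⟨ε₀, hε₀, hav⟩ := hAVG n r1 (r1 + δ) (r1 + 3 * δ) (r1 + 4 * δ) R hr10 (by linarith)
    (by linarith) (by linarith) (by linarith) σ (hG.smooth.mono hsub)
    (fun z hz => hG.closed z (hsub hz)) (fun z hz v => hG.nonneg z (hsub hz) v)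
    (fun z hz v hv => hr1pos z ⟨Qc_mono (by linarith) hz.1, fun h => hz.2 (Qo_mono (by linarith) h)⟩
      v hv)
  obtain ⟨ε, hε, hεε, hεδ⟩ : ∃ ε : ℝ, 0 < ε ∧ ε < ε₀ ∧ ε < δ :=
    ⟨min ε₀ δ / 2, by positivity, by
      have := min_le_left ε₀ δ
      have h2 : 0 < min ε₀ δ := lt_min hε₀ hδ0
      linarith, by
      have := min_le_right ε₀ δ
      have h2 : 0 < min ε₀ δ := lt_min hε₀ hδ0
      linarith⟩
  obtain ⟨ρ, hρ⟩ := exists_moll n hε
  obtain ⟨w, hws, hwc, hwo, hwi, hwn, hwp⟩ := hav ε hε hεε ρ hρ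
  -- the (1,1)-part
  obtain ⟨hint, hpc⟩ := hWPC hNULL hMASS hCUT s_COMP n hn O K σ R hR hG hK hKR hRO
  obtain ⟨hcs, hcpc, hcpos⟩ := hREG s_MK n R ε K σ O hε (by linarith) hG (hNULL n hn K hK).1 hKR hRO
    hint hpc ρ hρ
  set h : Fin n → Fin n → EC n → ℂ := fun j k => cv ρ ((Qc n R).indicator (HH σ j k)) with hh
  have hsymm : ∀ j k z, h k j z = - conj (h j k z) := fun j k z => by
    refine cv_conj ρ (fun y => ?_) z
    by_cases hy : y ∈ Qc n R
    · rw [indicator_of_mem hy, indicator_of_mem hy, HH_symm]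
    · rw [indicator_of_notMem hy, indicator_of_notMem hy]; simp
  have h3 : r1 + 3 * δ ≤ R - ε := by linarith
  have hwh : ∀ z ∈ Qo n (r1 + 3 * δ) \ Qc n (r1 + δ), ∀ j k, HH w j k z = h j k z := by
    intro z hz j k
    rw [HH_congr (hwi z hz)]
    refine HH_av (W := Qo n R \ Qc n r1) hρ ((isOpen_Qo n R).sdiff (isClosed_Qc n r1))
      (hG.smooth.continuousOn.mono hsub) (sdiff_subset.trans (Qo_sub_Qc n R)) (fun y hy => ?_) j k
    have hy' : ‖y‖ < δ := hy.trans_lt hεδ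
    exact ⟨sub_mem_Qo (ε := δ) (by linarith) hy' hz.1, sub_notMem_Qc (ε := δ) (by linarith) hy' hz.2⟩
  obtain ⟨τ, hτs, hτc, hτh, hτw⟩ := inner_form (r := r1 + δ) (r' := r1 + 2 * δ) (R := r1 + 3 * δ)
    hEH hID (by omega) (by linarith)
    (by linarith) (by linarith) (h := h) (fun j k => (hcs j k).contDiffOn) hsymm
    (fun l j k m z hz => hcpc l j k m z (Qo_mono h3 hz))
    (w := w) (hws.mono (sdiff_subset_sdiff_left (Qo_mono (by linarith))))
    (fun z hz => hwc z ⟨Qo_mono (by linarith) hz.1, hz.2⟩) hwh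
  have hτn : ∀ z v : EC n, 0 ≤ qq (τ z) v := by
    intro z v
    rw [qq_formula]
    simp only [hτh]
    exact hcpos z v
  -- gluing
  classical
  set w1 : EC n → F2 n := fun z => if z ∈ Qo n (r1 + 3 * δ) then τ z else
    if z ∈ Qo n R then w z else σ z with hw1
  have e1 : ∀ z ∈ Qo n (r1 + 3 * δ), w1 z = τ z := fun z hz => by
    simp only [hw1]; rw [if_pos hz]
  have e2 : ∀ z ∈ Qo n R \ Qc n (r1 + 2 * δ), w1 z = w z := fun z hz => by
    simp only [hw1]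
    by_cases h3 : z ∈ Qo n (r1 + 3 * δ)
    · rw [if_pos h3, hτw z ⟨h3, hz.2⟩]
    · rw [if_neg h3, if_pos hz.1]
  have e3 : ∀ z, z ∉ Qc n (r1 + 4 * δ) → w1 z = σ z := fun z hz => by
    simp only [hw1]
    rw [if_neg fun h => hz (Qc_mono (by linarith) (Qo_sub_Qc _ _ h))]
    by_cases h3 : z ∈ Qo n R
    · rw [if_pos h3, hwo z ⟨h3, hz⟩]
    · rw [if_neg h3]
  have hloc : ∀ z ∈ O, ∃ s : EC n → F2 n, w1 =ᶠ[𝓝 z] s ∧ ContDiffAt ℝ ∞ s z ∧ extDeriv s z = 0 := by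
    intro z hz
    by_cases h3 : z ∈ Qo n (r1 + 3 * δ)
    · refine ⟨τ, ?_, hτs.contDiffAt ((isOpen_Qo _ _).mem_nhds h3), hτc z h3⟩
      filter_upwards [(isOpen_Qo _ _).mem_nhds h3] with y hy
      exact e1 y hy
    · have hz2 : z ∉ Qc n (r1 + 2 * δ) := fun h => h3 (Qc_sub_Qo (by linarith) h)
      by_cases h4 : z ∈ Qo n R
      · have ho : IsOpen (Qo n R \ Qc n (r1 + 2 * δ)) := (isOpen_Qo _ _).sdiff (isClosed_Qc _ _)
        have hz1 : z ∉ Qc n (r1 + δ) := fun h => hz2 (Qc_mono (by linarith) h)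
        refine ⟨w, ?_, hws.contDiffAt (((isOpen_Qo _ _).sdiff (isClosed_Qc _ _)).mem_nhds
          ⟨h4, hz1⟩), hwc z ⟨h4, hz1⟩⟩
        filter_upwards [ho.mem_nhds ⟨h4, hz2⟩] with y hy
        exact e2 y hy
      · have hz4 : z ∉ Qc n (r1 + 4 * δ) := fun h => h4 (Qc_sub_Qo (by linarith) h)
        have hzK : z ∈ O \ K := ⟨hz, fun h => h4 (hKR h)⟩
        refine ⟨σ, ?_, hG.smooth.contDiffAt (hOK.mem_nhds hzK), hG.closed z hzK⟩
        filter_upwards [(isClosed_Qc _ _).isOpen_compl.mem_nhds hz4] with y hy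
        exact e3 y hy
  have hw1s : ContDiffOn ℝ ∞ w1 O := fun z hz => by
    obtain ⟨s, hs1, hs2, _⟩ := hloc z hz
    exact (hs2.congr_of_eventuallyEq hs1).contDiffWithinAt
  have hw1c : ∀ z ∈ O, extDeriv w1 z = 0 := fun z hz => by
    obtain ⟨s, hs1, _, hs3⟩ := hloc z hz
    rw [hs1.extDeriv_eq, hs3]
  obtain ⟨w2, hw2s, hw2c, hw2o, hw2p⟩ := hADD n (r1 + 3 * δ) (r1 + 4 * δ) R (by linarith)
    (by linarith) (by linarith) O w1 hG.isOpen hRO hw1s hw1c (by
      intro z hz v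
      by_cases h3 : z ∈ Qo n (r1 + 3 * δ)
      · rw [e1 z h3]; exact hτn z v
      · have hz2 : z ∉ Qc n (r1 + 2 * δ) := fun h => h3 (Qc_sub_Qo (by linarith) h)
        have hzR : z ∈ Qo n R := Qc_sub_Qo (by linarith) hz
        rw [e2 z ⟨hzR, hz2⟩]
        exact hwn z ⟨hzR, fun h => hz2 (Qc_mono (by linarith) h)⟩ v) (by
      intro z hz v hv
      have hz2 : z ∉ Qc n (r1 + 2 * δ) := fun h => hz.2 (Qc_sub_Qo (by linarith) h)
      have hzR : z ∈ Qo n R := Qc_sub_Qo (by linarith) hz.1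
      rw [e2 z ⟨hzR, hz2⟩]
      exact hwp z hz v hv)
  refine ⟨w2, r1 + 4 * δ, by linarith, by linarith, hw2s, hw2c, fun z hz => ?_, fun z hz v hv => ?_⟩
  · rw [hw2o z hz, e3 z hz.2]
  · by_cases h4 : z ∈ Qc n (r1 + 4 * δ)
    · exact hw2p z h4 v hv
    · rw [hw2o z ⟨hRO hz, h4⟩, e3 z h4]
      exact hr1pos z ⟨hz, fun h => h4 (Qc_mono (by linarith) (Qo_sub_Qc _ _ h))⟩ v hv

end Pool.Agent.L7h17.RS
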