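import Pool.Agent.L7h17.RS.Loc
import Pool.Agent.Y501.SY.PubT
import Pool.Agent.Y604.SY.Pull

/-!
# Project RS: the step on a manifold (helper17)
-/

set_option autoImplicit false

open Set Filter Topology MeasureTheory
open scoped Manifold ContDiff ComplexConjugate

noncomputable section

namespace Pool.Agent.L7h17.RS

open Pool.Agent.Y501.SYP

section man

variable {V : Type} [NormedAddCommGroup V] [NormedSpace ℝ V]
  {X : Type} [TopologicalSpace X] [ChartedSpace V X] {n : ℕ}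

variable (V) in
/-- the derivative of the coordinates -/
def dA (φ : OpenPartialHomeomorph X (EC n)) (x : X) : V →L[ℝ] EC n :=
  mfderiv 𝓘(ℝ, V) 𝓘(ℝ, EC n) φ x

variable (V) in
/-- the derivative of the inverse of the coordinates -/
def dB (φ : OpenPartialHomeomorph X (EC n)) (p : EC n) : EC n →L[ℝ] V :=
  mfderiv 𝓘(ℝ, EC n) 𝓘(ℝ, V) φ.symm p

/-- `φ` are complex coordinates for `J`: a smooth chart with values in `ℂ^n` in which `J` is the
multiplication by `i` -/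
structure HolCoord (J : End V X) (φ : OpenPartialHomeomorph X (EC n)) : Prop where
  smooth : ContMDiffOn 𝓘(ℝ, V) 𝓘(ℝ, EC n) ∞ φ φ.source
  smooth_symm : ContMDiffOn 𝓘(ℝ, EC n) 𝓘(ℝ, V) ∞ φ.symm φ.target
  hol : ∀ x ∈ φ.source, ∀ v : V, dA V φ x (J x v) = Complex.I • dA V φ x v

/-- the points of `K`, and the points of `U` at which `σ` does not tame `J` -/
def Bad (σ : Form V X 2) (J : End V X) (K U : Set X) : Set X := K ∪ {x | x ∈ U ∧ ¬ TamesAt σ J x}

/-- a closed cube in complex coordinates, in `U`, whose boundary does not meet `B`, and in which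
the `(2n-4)`-dimensional Hausdorff measure of `K` is zero -/
structure Cube (J : End V X) (K B U : Set X) (φ : OpenPartialHomeomorph X (EC n)) (R : ℝ) :
    Prop where
  pos : 0 < R
  coord : HolCoord J φ
  sub : Qc n R ⊆ φ.target
  inU : ∀ p ∈ Qc n R, φ.symm p ∈ U
  bdry : ∀ p ∈ Qc n R \ Qo n R, φ.symm p ∉ B
  null : μH[2 * (n : ℝ) - 4] {p | p ∈ Qc n R ∧ φ.symm p ∈ K} = 0

/-- the open cube in the manifold -/
def oc (φ : OpenPartialHomeomorph X (EC n)) (R : ℝ) : Set X := {x | x ∈ φ.source ∧ φ x ∈ Qo n R}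
/-- the closed cube in the manifold -/
def cc (φ : OpenPartialHomeomorph X (EC n)) (R : ℝ) : Set X := {x | x ∈ φ.source ∧ φ x ∈ Qc n R}

variable {φ : OpenPartialHomeomorph X (EC n)}

variable {J : End V X}

theorem HolCoord.mdA (h : HolCoord J φ) {x : X} (hx : x ∈ φ.source) :
    MDifferentiableAt 𝓘(ℝ, V) 𝓘(ℝ, EC n) φ x :=
  ((h.smooth x hx).contMDiffAt (φ.open_source.mem_nhds hx)).mdifferentiableAt (by simp)

theorem HolCoord.mdB (h : HolCoord J φ) {p : EC n} (hp : p ∈ φ.target) :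
    MDifferentiableAt 𝓘(ℝ, EC n) 𝓘(ℝ, V) φ.symm p :=
  ((h.smooth_symm p hp).contMDiffAt (φ.open_target.mem_nhds hp)).mdifferentiableAt (by simp)

theorem AB (h : HolCoord J φ) {p : EC n} (hp : p ∈ φ.target) (v : EC n) :
    dA V φ (φ.symm p) (dB V φ p v) = v := by
  have h1 := mfderiv_comp (I := 𝓘(ℝ, EC n)) (I' := 𝓘(ℝ, V)) (I'' := 𝓘(ℝ, EC n)) p
    (h.mdA (φ.map_target hp)) (h.mdB hp)
  have h2 : (φ ∘ φ.symm : EC n → EC n) =ᶠ[𝓝 p] id := by
    filter_upwards [φ.open_target.mem_nhds hp] with q hq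
    exact φ.right_inv hq
  have h3 : mfderiv 𝓘(ℝ, EC n) 𝓘(ℝ, EC n) (φ ∘ φ.symm) p =
      mfderiv 𝓘(ℝ, EC n) 𝓘(ℝ, EC n) (id : EC n → EC n) p := h2.mfderiv_eq
  rw [mfderiv_id] at h3
  have h4 := h1.symm.trans h3
  exact congrArg (fun L : EC n →L[ℝ] EC n => L v) h4

theorem BA (h : HolCoord J φ) {x : X} (hx : x ∈ φ.source) (v : V) :
    dB V φ (φ x) (dA V φ x v) = v := by
  have hx' : φ x ∈ φ.target := φ.map_source hx
  have h1 := mfderiv_comp (I := 𝓘(ℝ, V)) (I' := 𝓘(ℝ, EC n)) (I'' := 𝓘(ℝ, V)) x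
    (h.mdB hx') (h.mdA hx)
  have h2 : (φ.symm ∘ φ : X → X) =ᶠ[𝓝 x] id := by
    filter_upwards [φ.open_source.mem_nhds hx] with q hq
    exact φ.left_inv hq
  have h3 : mfderiv 𝓘(ℝ, V) 𝓘(ℝ, V) (φ.symm ∘ φ) x =
      mfderiv 𝓘(ℝ, V) 𝓘(ℝ, V) (id : X → X) x := h2.mfderiv_eq
  rw [mfderiv_id] at h3
  have h4 := h1.symm.trans h3
  exact congrArg (fun L : V →L[ℝ] V => L v) h4

/-- `J` in complex coordinates -/
theorem J_dB (h : HolCoord J φ) {p : EC n} (hp : p ∈ φ.target) (v : EC n) :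
    (J (φ.symm p) (dB V φ p v) : V) = dB V φ p (Complex.I • v) := by
  have hx : φ.symm p ∈ φ.source := φ.map_target hp
  have h1 : dA V φ (φ.symm p) (J (φ.symm p) (dB V φ p v)) = Complex.I • v := by
    rw [h.hol _ hx (dB V φ p v), AB h hp v]
  have h3 := BA h hx (J (φ.symm p) (dB V φ p v) : V)
  rw [φ.right_inv hp] at h3
  rw [← h3, h1]

/-- the form `σ` in the coordinates -/
def loc2 (σ : Form V X 2) (φ : OpenPartialHomeomorph X (EC n)) (p : EC n) : F2 n :=
  (σ (φ.symm p) : V [⋀^Fin 2]→L[ℝ] ℝ).compContinuousLinearMap (dB V φ p)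

theorem loc2_apply (σ : Form V X 2) (p : EC n) (v w : EC n) :
    loc2 σ φ p ![v, w] = (σ (φ.symm p) : V [⋀^Fin 2]→L[ℝ] ℝ) ![dB V φ p v, dB V φ p w] := by
  show (σ (φ.symm p) : V [⋀^Fin 2]→L[ℝ] ℝ) (fun i => dB V φ p ((![v, w] : Fin 2 → EC n) i)) = _
  congr 1
  funext i
  fin_cases i <;> rfl

theorem qq_loc2 (h : HolCoord J φ) (σ : Form V X 2) {p : EC n} (hp : p ∈ φ.target) (v : EC n) :
    qq (loc2 σ φ p) v = qd σ J (φ.symm p) (dB V φ p v) := by
  unfold qq qd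
  rw [loc2_apply, ← J_dB h hp v]

/-- the derivative of the inverse of the coordinates at one point, as an equivalence -/
def eqv (h : HolCoord J φ) {p : EC n} (hp : p ∈ φ.target) : V ≃L[ℝ] EC n :=
  ContinuousLinearEquiv.equivOfInverse (dA V φ (φ.symm p)) (dB V φ p)
    (fun v => by
      have h1 := BA h (φ.map_target hp) v
      rw [φ.right_inv hp] at h1
      exact h1)
    (fun v => AB h hp v)

/-- smoothness and closedness of the form in the coordinates -/
theorem loc2_closed (h : HolCoord J φ) {σ : Form V X 2} {K : Set X} (hσ : ClosedOff σ K)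
    {W : Set (EC n)} (hW : IsOpen W) (hWt : W ⊆ φ.target) (hWK : ∀ p ∈ W, φ.symm p ∉ K) :
    ContDiffOn ℝ ∞ (loc2 σ φ) W ∧ ∀ p ∈ W, extDeriv (loc2 σ φ) p = 0 := by
  rcases W.eq_empty_or_nonempty with rfl | ⟨p₀, hp₀⟩
  · exact ⟨contDiffOn_empty, fun p hp => absurd hp (notMem_empty p)⟩
  set L : V ≃L[ℝ] EC n := eqv h (hWt hp₀) with hL
  set ψ : V → X := fun q => φ.symm (L q) with hψ
  set U : Set V := L ⁻¹' W with hU
  have hUo : IsOpen U := hW.preimage L.continuous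
  have hLs : ContMDiff 𝓘(ℝ, V) 𝓘(ℝ, EC n) ∞ L := L.contDiff.contMDiff
  have hψs : ContMDiffOn 𝓘(ℝ, V) 𝓘(ℝ, V) ∞ ψ U :=
    h.smooth_symm.comp hLs.contMDiffOn fun q hq => hWt hq
  obtain ⟨h1, h2⟩ := hσ U ψ ⟨hUo, hψs⟩ (fun q hq => hWK _ hq)
  have hpb : ∀ q ∈ U, pb ψ σ q = (loc2 σ φ (L q)).compContinuousLinearMap (L : V →L[ℝ] EC n) := by
    intro q hq
    have hc := mfderiv_comp (I := 𝓘(ℝ, V)) (I' := 𝓘(ℝ, EC n)) (I'' := 𝓘(ℝ, V)) q
      (h.mdB (hWt hq)) (hLs.mdifferentiable (by simp) q)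
    have hL' : mfderiv 𝓘(ℝ, V) 𝓘(ℝ, EC n) L q = (L : V →L[ℝ] EC n) := by
      rw [mfderiv_eq_fderiv]
      exact L.fderiv
    unfold pb
    have hc' : mfderiv 𝓘(ℝ, V) 𝓘(ℝ, V) ψ q = (dB V φ (L q)).comp (L : V →L[ℝ] EC n) := by
      rw [← hL']
      exact hc
    rw [hc']
    rfl
  have hloc : ∀ p ∈ W, loc2 σ φ p =
      (pb ψ σ (L.symm p)).compContinuousLinearMap (L.symm : EC n →L[ℝ] V) := by
    intro p hp
    have hq : L.symm p ∈ U := by
      show L (L.symm p) ∈ W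
      rw [L.apply_symm_apply]; exact hp
    rw [hpb _ hq, L.apply_symm_apply]
    ext v
    simp only [ContinuousAlternatingMap.compContinuousLinearMap_apply]
    congr 1
    funext i
    simp
  have hmem : ∀ p ∈ W, L.symm p ∈ U := fun p hp => by
    show L (L.symm p) ∈ W
    rw [L.apply_symm_apply]; exact hp
  have hat : ∀ p ∈ W, ContDiffAt ℝ ∞ (pb ψ σ) (L.symm p) := fun p hp =>
    h1.contDiffAt (hUo.mem_nhds (hmem p hp))
  have hev : ∀ p ∈ W, loc2 σ φ =ᶠ[𝓝 p] fun q =>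
      (pb ψ σ (L.symm q)).compContinuousLinearMap (L.symm : EC n →L[ℝ] V) := fun p hp => by
    filter_upwards [hW.mem_nhds hp] with q hq
    exact hloc q hq
  constructor
  · intro p hp
    have h5 : ContDiffAt ℝ ∞ (fun q : EC n => (pb ψ σ (L.symm q), (L.symm : EC n →L[ℝ] V))) p :=
      (ContDiffAt.comp p (hat p hp) L.symm.contDiff.contDiffAt).prodMk contDiffAt_const
    have h6 : ContDiffAt ℝ ∞ (fun q : EC n => (pb ψ σ (L.symm q)).compContinuousLinearMap
        (L.symm : EC n →L[ℝ] V)) p :=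
      Pool.Agent.Y604.SY.contDiff_pull.contDiffAt.comp p h5
    exact (h6.congr_of_eventuallyEq (hev p hp)).contDiffWithinAt
  · intro p hp
    have hfd : ∀ q, fderiv ℝ L.symm q = (L.symm : EC n →L[ℝ] V) := fun q => L.symm.fderiv
    have h7 : (fun q : EC n => (pb ψ σ (L.symm q)).compContinuousLinearMap
        (L.symm : EC n →L[ℝ] V)) = fun q => (pb ψ σ (L.symm q)).compContinuousLinearMap
        (fderiv ℝ L.symm q) := by
      funext q; rw [hfd]
    rw [(hev p hp).extDeriv_eq, h7, extDeriv_pullback (r := ∞) ((hat p hp).differentiableAt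
      (by simp)) L.symm.contDiff.contDiffAt (by
        rw [minSmoothness_of_isRCLikeNormedField]
        exact WithTop.coe_le_coe.2 le_top), h2 _ (hmem p hp)]
    ext v
    rfl

end man

end Pool.Agent.L7h17.RS
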