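import Pool.Agent.L7h17.RS.Man

/-!
# Project RS: surgery in one cube (helper17)
-/

set_option autoImplicit false

open Set Filter Topology MeasureTheory
open scoped Manifold ContDiff ComplexConjugate

noncomputable section

namespace Pool.Agent.L7h17.RS

open Pool.Agent.Y501.SYP

section man

variable {V : Type} [NormedAddCommGroup V] [NormedSpace ℝ V]
  {X : Type} [TopologicalSpace X] [ChartedSpace V X] {n : ℕ}
  {φ : OpenPartialHomeomorph X (EC n)} {J : End V X}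

/-- the form which is `w` in the coordinates `φ` over the open set `O`, and `σ` elsewhere -/
def ptch (φ : OpenPartialHomeomorph X (EC n)) (O : Set (EC n)) (w : EC n → F2 n)
    (σ : Form V X 2) : Form V X 2 := fun x =>
  letI := Classical.propDecidable (x ∈ φ.source ∧ φ x ∈ O)
  if x ∈ φ.source ∧ φ x ∈ O then (w (φ x)).compContinuousLinearMap (dA V φ x) else σ x

theorem ptch_of_mem {O : Set (EC n)} {w : EC n → F2 n} {σ : Form V X 2} {x : X}
    (hx : x ∈ φ.source ∧ φ x ∈ O) :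
    ptch φ O w σ x = (w (φ x)).compContinuousLinearMap (dA V φ x) := by
  unfold ptch
  exact if_pos hx

theorem ptch_of_notMem {O : Set (EC n)} {w : EC n → F2 n} {σ : Form V X 2} {x : X}
    (hx : ¬ (x ∈ φ.source ∧ φ x ∈ O)) : ptch φ O w σ x = σ x := by
  unfold ptch
  exact if_neg hx

theorem qd_ptch (h : HolCoord J φ) {O : Set (EC n)} {w : EC n → F2 n} {σ : Form V X 2} {x : X}
    (hx : x ∈ φ.source ∧ φ x ∈ O) (v : V) :
    qd (ptch φ O w σ) J x v = qq (w (φ x)) (dA V φ x v) := by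
  unfold qd qq
  rw [ptch_of_mem hx]
  show w (φ x) (fun i => dA V φ x ((![v, J x v] : Fin 2 → V) i)) = _
  congr 1
  funext i
  fin_cases i
  · rfl
  · exact h.hol x hx.1 v

theorem ptch_eq (h : HolCoord J φ) {O : Set (EC n)} {w : EC n → F2 n} {σ : Form V X 2} {x : X}
    (hx : x ∈ φ.source ∧ φ x ∈ O) (hw : w (φ x) = loc2 σ φ (φ x)) :
    ptch φ O w σ x = σ x := by
  have key : ∀ p ∈ φ.target, φ (φ.symm p) ∈ O → w p = loc2 σ φ p →
      ptch φ O w σ (φ.symm p) = σ (φ.symm p) := by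
    intro p hp hpO hwp
    rw [ptch_of_mem ⟨φ.map_target hp, hpO⟩, φ.right_inv hp, hwp]
    refine ContinuousAlternatingMap.ext fun v => ?_
    show (σ (φ.symm p) : V [⋀^Fin 2]→L[ℝ] ℝ)
      (fun i => dB V φ p (dA V φ (φ.symm p) (v i))) = (σ (φ.symm p) :
        V [⋀^Fin 2]→L[ℝ] ℝ) v
    congr 1
    funext i
    have := BA h (φ.map_target hp) (v i)
    rw [φ.right_inv hp] at this
    exact this
  have h1 := key (φ x) (φ.map_source hx.1) (by rw [φ.left_inv hx.1]; exact hx.2) hw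
  rw [φ.left_inv hx.1] at h1
  exact h1

/-- near the points which are sent into the coordinate domain -/
theorem ptch_near (h : HolCoord J φ) {O : Set (EC n)} (hO : IsOpen O) {w : EC n → F2 n}
    {σ : Form V X 2} {U : Set V} {ψ : V → X} (hψ : SmoothParam U ψ) {p₀ : V} (hp₀ : p₀ ∈ U)
    (hx : ψ p₀ ∈ φ.source ∧ φ (ψ p₀) ∈ O) :
    ContDiffAt ℝ ∞ (φ ∘ ψ) p₀ ∧ pb ψ (ptch φ O w σ) =ᶠ[𝓝 p₀] fun p =>
      (w ((φ ∘ ψ) p)).compContinuousLinearMap (fderiv ℝ (φ ∘ ψ) p) := by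
  have hS : IsOpen (φ.source ∩ φ ⁻¹' O) := φ.isOpen_inter_preimage hO
  have hU' : IsOpen (U ∩ ψ ⁻¹' (φ.source ∩ φ ⁻¹' O)) :=
    hψ.2.continuousOn.isOpen_inter_preimage hψ.1 hS
  have hm : ContMDiffOn 𝓘(ℝ, V) 𝓘(ℝ, EC n) ∞ (φ ∘ ψ) (U ∩ ψ ⁻¹' (φ.source ∩ φ ⁻¹' O)) :=
    h.smooth.comp (hψ.2.mono inter_subset_left) fun p hp => hp.2.1
  have hm' : ContDiffOn ℝ ∞ (φ ∘ ψ) (U ∩ ψ ⁻¹' (φ.source ∩ φ ⁻¹' O)) :=
    contMDiffOn_iff_contDiffOn.1 hm
  refine ⟨hm'.contDiffAt (hU'.mem_nhds ⟨hp₀, hx⟩), ?_⟩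
  filter_upwards [hU'.mem_nhds ⟨hp₀, hx⟩] with p hp
  have hψp : MDifferentiableAt 𝓘(ℝ, V) 𝓘(ℝ, V) ψ p :=
    ((hψ.2 p hp.1).contMDiffAt (hψ.1.mem_nhds hp.1)).mdifferentiableAt (by simp)
  have hc := mfderiv_comp (I := 𝓘(ℝ, V)) (I' := 𝓘(ℝ, V)) (I'' := 𝓘(ℝ, EC n)) p
    (h.mdA hp.2.1) hψp
  have e1 : ptch φ O w σ (ψ p) = (w (φ (ψ p))).compContinuousLinearMap (dA V φ (ψ p)) :=
    ptch_of_mem hp.2
  have e2 : pb ψ (ptch φ O w σ) p =
      ((w (φ (ψ p))).compContinuousLinearMap (dA V φ (ψ p))).compContinuousLinearMap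
        (mfderiv 𝓘(ℝ, V) 𝓘(ℝ, V) ψ p : V →L[ℝ] V) :=
    congrArg (fun τ : V [⋀^Fin 2]→L[ℝ] ℝ => τ.compContinuousLinearMap
      (mfderiv 𝓘(ℝ, V) 𝓘(ℝ, V) ψ p : V →L[ℝ] V)) e1
  rw [e2, ← mfderiv_eq_fderiv]
  have e3 : (mfderiv 𝓘(ℝ, V) 𝓘(ℝ, EC n) (φ ∘ ψ) p : V →L[ℝ] EC n) =
      (dA V φ (ψ p)).comp (mfderiv 𝓘(ℝ, V) 𝓘(ℝ, V) ψ p : V →L[ℝ] V) := hc
  refine ContinuousAlternatingMap.ext fun v => ?_
  show w (φ (ψ p)) (fun i => dA V φ (ψ p) ((mfderiv 𝓘(ℝ, V) 𝓘(ℝ, V) ψ p : V →L[ℝ] V) (v i))) =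
    w (φ (ψ p)) (fun i => (mfderiv 𝓘(ℝ, V) 𝓘(ℝ, EC n) (φ ∘ ψ) p : V →L[ℝ] EC n) (v i))
  congr 1
  funext i
  exact (congrArg (fun L : V →L[ℝ] EC n => L (v i)) e3).symm

variable {σ : Form V X 2} {K U : Set X} {R : ℝ}

theorem step (hLOC : S_LOC) (hn : 3 ≤ n) [T2Space X] (hK : IsClosed K) (hU : IsOpen U)
    (hσ : ClosedOff σ K)
    (hnn : ∀ x ∈ U, x ∉ K → ∀ v : TangentSpace 𝓘(ℝ, V) x, 0 ≤ qd σ J x v)
    (hC : Cube J K (Bad σ J K U) U φ R) :
    ∃ σ' : Form V X 2, ClosedOff σ' (K \ oc φ R) ∧ (∀ x, x ∉ U → σ' x = σ x) ∧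
      (∀ x ∈ U, x ∉ K \ oc φ R → ∀ v : TangentSpace 𝓘(ℝ, V) x, 0 ≤ qd σ' J x v) ∧
      Bad σ' J (K \ oc φ R) U ⊆ Bad σ J K U \ oc φ R := by
  have h := hC.coord
  set O : Set (EC n) := (φ.target ∩ φ.symm ⁻¹' U) ∩ ((φ.target ∩ φ.symm ⁻¹' Kᶜ) ∪ Qo n R) with hO
  have hOo : IsOpen O := by
    refine IsOpen.inter ?_ (IsOpen.union ?_ (isOpen_Qo n R))
    · exact φ.symm.isOpen_inter_preimage hU
    · exact φ.symm.isOpen_inter_preimage hK.isOpen_compl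
  have hOt : O ⊆ φ.target := fun p hp => hp.1.1
  have hQO : Qc n R ⊆ O := fun p hp => ⟨⟨hC.sub hp, hC.inU p hp⟩, by
    by_cases h1 : p ∈ Qo n R
    · exact Or.inr h1
    · exact Or.inl ⟨hC.sub hp, fun h2 => hC.bdry p ⟨hp, h1⟩ (Or.inl h2)⟩⟩
  set K' : Set (EC n) := {p | p ∈ Qc n R ∧ φ.symm p ∈ K} with hK'
  have hcs : ContinuousOn φ.symm (Qc n R) := φ.continuousOn_symm.mono hC.sub
  have hK'c : IsCompact K' := by
    have h1 := hcs.preimage_isClosed_of_isClosed (isClosed_Qc n R) hK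
    exact (isCompact_Qc n R).of_isClosed_subset h1 inter_subset_left
  have hK'R : K' ⊆ Qo n R := fun p hp => by
    by_contra h1
    exact hC.bdry p ⟨hp.1, h1⟩ (Or.inl hp.2)
  have hOK : ∀ p ∈ O \ K', φ.symm p ∉ K := fun p hp => by
    rcases hp.1.2 with h1 | h1
    · exact h1.2
    · exact fun h2 => hp.2 ⟨Qo_sub_Qc n R h1, h2⟩
  have hOKo : IsOpen (O \ K') := hOo.sdiff hK'c.isClosed
  obtain ⟨hs, hcl⟩ := loc2_closed h hσ hOKo (fun p hp => hOt hp.1) hOK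
  have hG : Good O K' (loc2 σ φ) := by
    refine ⟨hOo, hs, hcl, fun p hp v => ?_⟩
    rw [qq_loc2 h σ (hOt hp.1)]
    exact hnn _ hp.1.1.2 (hOK p hp) _
  have hdB : ∀ p ∈ φ.target, ∀ v : EC n, v ≠ 0 → dB V φ p v ≠ 0 := fun p hp v hv h0 => by
    have := AB h hp v
    rw [h0, map_zero] at this
    exact hv this.symm
  have hdA : ∀ x ∈ φ.source, ∀ v : V, v ≠ 0 → dA V φ x v ≠ 0 := fun x hx v hv h0 => by
    have := BA h hx v
    rw [h0, map_zero] at this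
    exact hv this.symm
  obtain ⟨w, r, hr0, hrR, hws, hwc, hwo, hwp⟩ := hLOC n hn O K' (loc2 σ φ) R hC.pos hG
    ⟨hK'c, hC.null⟩ hK'R hQO (fun p hp v hv => by
      rw [qq_loc2 h σ (hC.sub hp.1)]
      have h1 := hC.bdry p hp
      have h2 : TamesAt σ J (φ.symm p) := by
        by_contra h3
        exact h1 (Or.inr ⟨hC.inU p hp.1, h3⟩)
      exact h2 _ (hdB p (hC.sub hp.1) v hv))
  -- the closed cube in the manifold
  have hccl : IsClosed (cc φ R) := by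
    have h1 : cc φ R = φ.symm '' Qc n R := by
      ext x
      constructor
      · rintro ⟨h1, h2⟩
        exact ⟨φ x, h2, φ.left_inv h1⟩
      · rintro ⟨p, hp, rfl⟩
        exact ⟨φ.map_target (hC.sub hp), by rw [φ.right_inv (hC.sub hp)]; exact hp⟩
    rw [h1]
    exact ((isCompact_Qc n R).image_of_continuousOn hcs).isClosed
  have hocc : oc φ R ⊆ cc φ R := fun x hx => ⟨hx.1, Qo_sub_Qc n R hx.2⟩
  have hout : ∀ x, x ∉ cc φ R → ptch φ O w σ x = σ x := by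
    intro x hx
    by_cases h1 : x ∈ φ.source ∧ φ x ∈ O
    · refine ptch_eq h h1 (hwo _ ⟨h1.2, fun h2 => hx ⟨h1.1, Qc_mono hrR.le h2⟩⟩)
    · exact ptch_of_notMem h1
  have hin : ∀ x ∈ cc φ R, TamesAt (ptch φ O w σ) J x := by
    intro x hx v hv
    have h1 : x ∈ φ.source ∧ φ x ∈ O := ⟨hx.1, hQO hx.2⟩
    have h2 := qd_ptch (w := w) (σ := σ) h h1 v
    rw [h2]
    exact hwp _ hx.2 _ (hdA x hx.1 v hv)
  refine ⟨ptch φ O w σ, ?_, ?_, ?_, ?_⟩
  · intro U₀ ψ hψ hav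
    have key : ∀ p ∈ U₀, ContDiffAt ℝ ∞ (pb ψ (ptch φ O w σ)) p ∧
        extDeriv (pb ψ (ptch φ O w σ)) p = 0 := by
      intro p hp
      by_cases h1 : ψ p ∈ φ.source ∧ φ (ψ p) ∈ O
      · obtain ⟨h2, h3⟩ := ptch_near (w := w) (σ := σ) h hOo hψ hp h1
        have h4 : ContDiffAt ℝ ∞ w ((φ ∘ ψ) p) := hws.contDiffAt (hOo.mem_nhds h1.2)
        constructor
        · have h5 : ContDiffAt ℝ ∞ (fun q => (w ((φ ∘ ψ) q), fderiv ℝ (φ ∘ ψ) q)) p :=
            (h4.comp p h2).prodMk (h2.fderiv_right (by simp))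
          have h6 : ContDiffAt ℝ ∞ (fun q => (w ((φ ∘ ψ) q)).compContinuousLinearMap
              (fderiv ℝ (φ ∘ ψ) q)) p :=
            Pool.Agent.Y604.SY.contDiff_pull.contDiffAt.comp p h5
          exact h6.congr_of_eventuallyEq h3
        · rw [h3.extDeriv_eq, extDeriv_pullback (r := ∞) (h4.differentiableAt (by simp)) h2 (by
            rw [minSmoothness_of_isRCLikeNormedField]
            exact WithTop.coe_le_coe.2 le_top), hwc ((φ ∘ ψ) p) h1.2]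
          refine ContinuousAlternatingMap.ext fun v => rfl
      · have h2 : ψ p ∉ cc φ R := fun h2 => h1 ⟨h2.1, hQO h2.2⟩
        have h3 : ψ p ∉ K := fun h3 => h1 (by
          have h4 : ψ p ∈ oc φ R := by
            by_contra h5
            exact hav p hp ⟨h3, h5⟩
          exact ⟨h4.1, hQO (Qo_sub_Qc n R h4.2)⟩)
        have hU' : IsOpen (U₀ ∩ ψ ⁻¹' ((cc φ R)ᶜ ∩ Kᶜ)) :=
          hψ.2.continuousOn.isOpen_inter_preimage hψ.1 (hccl.isOpen_compl.inter hK.isOpen_compl)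
        have hpU : p ∈ U₀ ∩ ψ ⁻¹' ((cc φ R)ᶜ ∩ Kᶜ) := ⟨hp, h2, h3⟩
        obtain ⟨h4, h5⟩ := hσ _ ψ ⟨hU', hψ.2.mono inter_subset_left⟩ (fun q hq => hq.2.2)
        have h6 : pb ψ (ptch φ O w σ) =ᶠ[𝓝 p] pb ψ σ := by
          filter_upwards [hU'.mem_nhds hpU] with q hq
          unfold pb
          rw [hout _ hq.2.1]
        exact ⟨(h4.contDiffAt (hU'.mem_nhds hpU)).congr_of_eventuallyEq h6, by
          rw [h6.extDeriv_eq]; exact h5 p hpU⟩
    exact ⟨fun p hp => (key p hp).1.contDiffWithinAt, fun p hp => (key p hp).2⟩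
  · intro x hx
    refine ptch_of_notMem fun h1 => hx ?_
    have h2 := h1.2.1.2
    rw [mem_preimage, φ.left_inv h1.1] at h2
    exact h2
  · intro x hxU hxK v
    by_cases h1 : x ∈ cc φ R
    · by_cases hv : (v : V) = 0
      · have h0 : qd (ptch φ O w σ) J x v = qq (w (φ x)) (dA V φ x v) :=
          qd_ptch h ⟨h1.1, hQO h1.2⟩ v
        have hv' : dA V φ x v = 0 := (congrArg (fun u : V => dA V φ x u) hv).trans (map_zero _)
        rw [h0, hv']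
        have := qq_smul (w (φ x)) 0 0
        rw [smul_zero] at this
        rw [this]
        simp
      · exact (hin x h1 v hv).le
    · unfold qd
      rw [hout x h1]
      exact hnn x hxU (fun h2 => hxK ⟨h2, fun h3 => h1 (hocc h3)⟩) v
  · rintro x (hx | hx)
    · exact ⟨Or.inl hx.1, hx.2⟩
    · have h1 : x ∉ cc φ R := fun h1 => hx.2 (hin x h1)
      have h3 : ¬ TamesAt σ J x := by
        intro h2
        refine hx.2 fun v hv => ?_
        unfold qd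
        rw [hout x h1]
        exact h2 v hv
      exact ⟨Or.inr ⟨hx.1, h3⟩, fun h2 => h1 (hocc h2)⟩

theorem Cube.mono {K₁ K₂ B₁ B₂ : Set X} (h : Cube J K₁ B₁ U φ R) (hK : K₂ ⊆ K₁) (hB : B₂ ⊆ B₁) :
    Cube J K₂ B₂ U φ R where
  pos := h.pos
  coord := h.coord
  sub := h.sub
  inU := h.inU
  bdry := fun p hp hb => h.bdry p hp (hB hb)
  null := by
    have h1 : {p | p ∈ Qc n R ∧ φ.symm p ∈ K₂} ⊆ {p | p ∈ Qc n R ∧ φ.symm p ∈ K₁} :=
      fun _ hp => ⟨hp.1, hK hp.2⟩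
    exact measure_mono_null h1 h.null

theorem steps (hLOC : S_LOC) (hn : 3 ≤ n) [T2Space X] (hU : IsOpen U) {ι : Type}
    (f : ι → OpenPartialHomeomorph X (EC n)) (R : ι → ℝ) (t : Finset ι) :
    ∀ (σ : Form V X 2) (K : Set X), IsClosed K → ClosedOff σ K →
      (∀ x ∈ U, x ∉ K → ∀ v : TangentSpace 𝓘(ℝ, V) x, 0 ≤ qd σ J x v) →
      (∀ i ∈ t, Cube J K (Bad σ J K U) U (f i) (R i)) →
      (Bad σ J K U ⊆ ⋃ i ∈ t, oc (f i) (R i)) →
      ∃ w : Form V X 2, IsSmooth w ∧ IsClosedForm w ∧ (∀ x, x ∉ U → w x = σ x) ∧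
        ∀ x ∈ U, TamesAt w J x := by
  classical
  induction t using Finset.induction_on with
  | empty =>
    intro σ K hK hσ hnn hC hB
    have hB' : Bad σ J K U = ∅ := by
      rw [eq_empty_iff_forall_notMem]
      intro x hx
      have := hB hx
      simp at this
    have hK' : K = ∅ := by
      rw [eq_empty_iff_forall_notMem]
      intro x hx
      have h1 : x ∈ Bad σ J K U := Or.inl hx
      rw [hB'] at h1
      exact h1
    subst hK'
    refine ⟨σ, fun U₀ ψ hψ => (hσ U₀ ψ hψ (fun _ _ => notMem_empty _)).1,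
      fun U₀ ψ hψ => (hσ U₀ ψ hψ (fun _ _ => notMem_empty _)).2, fun _ _ => rfl, fun x hx => ?_⟩
    by_contra h
    have h1 : x ∈ Bad σ J ∅ U := Or.inr ⟨hx, h⟩
    rw [hB'] at h1
    exact h1
  | insert i t hit ih =>
    intro σ K hK hσ hnn hC hB
    obtain ⟨σ', h1, h2, h3, h4⟩ := step hLOC hn hK hU hσ hnn (hC i (Finset.mem_insert_self i t))
    have hoo : IsOpen (oc (f i) (R i)) := (f i).isOpen_inter_preimage (isOpen_Qo n (R i))
    obtain ⟨w, g1, g2, g3, g4⟩ := ih σ' (K \ oc (f i) (R i)) (hK.sdiff hoo) h1 h3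
      (fun j hj => (hC j (Finset.mem_insert_of_mem hj)).mono sdiff_subset
        (h4.trans sdiff_subset))
      (fun x hx => by
        have h5 := hB (h4 hx).1
        rw [Finset.set_biUnion_insert] at h5
        rcases h5 with h5 | h5
        · exact absurd h5 (h4 hx).2
        · exact h5)
    exact ⟨w, g1, g2, fun x hx => by rw [g3 x hx, h2 x hx], g4⟩

/-- **Removable singularities.** -/
theorem removable (hLOC : S_LOC) (hn : 3 ≤ n) [T2Space X] (hU : IsOpen U) (hK : IsClosed K)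
    (hσ : ClosedOff σ K)
    (hnn : ∀ x ∈ U, x ∉ K → ∀ v : TangentSpace 𝓘(ℝ, V) x, 0 ≤ qd σ J x v)
    (hB : IsCompact (Bad σ J K U))
    (hC : ∀ z ∈ Bad σ J K U, ∃ (φ : OpenPartialHomeomorph X (EC n)) (R : ℝ),
      Cube J K (Bad σ J K U) U φ R ∧ z ∈ oc φ R) :
    ∃ w : Form V X 2, IsSmooth w ∧ IsClosedForm w ∧ (∀ x, x ∉ U → w x = σ x) ∧
      ∀ x ∈ U, TamesAt w J x := by
  choose f R hf using hC
  obtain ⟨t, ht⟩ := hB.elim_nhds_subcover' (fun z hz => oc (f z hz) (R z hz)) (fun z hz =>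
    ((f z hz).isOpen_inter_preimage (isOpen_Qo n (R z hz))).mem_nhds (hf z hz).2)
  exact steps hLOC hn hU (fun z : Bad σ J K U => f z z.2) (fun z => R z z.2) t σ K hK hσ hnn
    (fun z _ => (hf z z.2).1) ht

end man

end Pool.Agent.L7h17.RS
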